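import Mathlib

section ModulesPart

/-!
# Modules of a graph (for MP_37c7bf_co, helper74)

`IsMod G M`: the vertex set `M` is a module.  `Cl G x y`: the smallest module containing `x` and
`y`, as an inductively defined predicate (a least fixed point).  `Rel G x y`: some proper module
contains `x` and `y`, i.e. `Cl G x y` is not everything.

If `G` and `Gᶜ` are connected and there are at least two vertices, `Rel G` is an equivalence
relation, its classes are modules different from the whole vertex set, and every proper module is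
contained in a class (so the classes are the maximal proper modules).
-/

set_option autoImplicit false

namespace Pool.Agent.Lib.MP_37c7bf_co_Mod

variable {V : Type*} (G : SimpleGraph V)

/-- `M` is a module: vertices of `M` have the same neighbours outside `M`. -/
def IsMod (M : Set V) : Prop := ∀ x ∈ M, ∀ y ∈ M, ∀ z ∉ M, G.Adj x z → G.Adj y z

/-- The smallest module containing `x` and `y`. -/
inductive Cl (x y : V) : V → Prop
  | left : Cl x y x
  | right : Cl x y y
  | step {u v z : V} : Cl x y u → Cl x y v → G.Adj u z → ¬ G.Adj v z → Cl x y z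

/-- Some proper module contains `x` and `y`. -/
def Rel (x y : V) : Prop := ∃ z, ¬ Cl G x y z

variable {G}

theorem isMod_cl (x y : V) : IsMod G {z | Cl G x y z} := by
  intro u hu v hv z hz huz
  by_contra h
  exact hz (Cl.step hu hv huz h)

theorem cl_subset {M : Set V} (hM : IsMod G M) {x y : V} (hx : x ∈ M) (hy : y ∈ M) :
    ∀ z, Cl G x y z → z ∈ M := by
  intro z hz
  induction hz with
  | left => exact hx
  | right => exact hy
  | step _ _ huz hvz hu hv =>
    by_contra hz
    exact hvz (hM _ hu _ hv _ hz huz)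

/-- `Cl` is the least fixed point of its rule, in unfolded form. -/
theorem cl_iff (x y z : V) : Cl G x y z ↔ z = x ∨ z = y ∨
    ∃ u v, Cl G x y u ∧ Cl G x y v ∧ G.Adj u z ∧ ¬ G.Adj v z := by
  constructor
  · intro h
    cases h with
    | left => exact Or.inl rfl
    | right => exact Or.inr (Or.inl rfl)
    | step hu hv h1 h2 => exact Or.inr (Or.inr ⟨_, _, hu, hv, h1, h2⟩)
  · rintro (rfl | rfl | ⟨u, v, hu, hv, h1, h2⟩)
    · exact Cl.left
    · exact Cl.right
    · exact Cl.step hu hv h1 h2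

theorem cl_symm {x y z : V} (h : Cl G x y z) : Cl G y x z :=
  cl_subset (isMod_cl y x) Cl.right Cl.left z h

theorem Rel.symm {x y : V} (h : Rel G x y) : Rel G y x := by
  obtain ⟨z, hz⟩ := h
  exact ⟨z, fun h => hz (cl_symm h)⟩

theorem rel_iff {x y : V} : Rel G x y ↔ ∃ M : Set V, IsMod G M ∧ M ≠ Set.univ ∧ x ∈ M ∧ y ∈ M := by
  constructor
  · rintro ⟨z, hz⟩
    refine ⟨{z | Cl G x y z}, isMod_cl x y, fun h => hz ?_, Cl.left, Cl.right⟩
    have : z ∈ {z | Cl G x y z} := h ▸ Set.mem_univ z
    exact this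
  · rintro ⟨M, hM, hne, hx, hy⟩
    obtain ⟨z, hz⟩ := (Set.ne_univ_iff_exists_notMem M).1 hne
    exact ⟨z, fun h => hz (cl_subset hM hx hy z h)⟩

theorem IsMod.univ : IsMod G (Set.univ : Set V) := fun _ _ _ _ z hz => absurd (Set.mem_univ z) hz

theorem IsMod.singleton (x : V) : IsMod G ({x} : Set V) := by
  rintro u rfl v rfl z _ h
  exact h

theorem IsMod.inter {M N : Set V} (hM : IsMod G M) (hN : IsMod G N) : IsMod G (M ∩ N) := by
  intro x hx y hy z hz h
  rw [Set.mem_inter_iff, not_and_or] at hz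
  rcases hz with hz | hz
  · exact hM x hx.1 y hy.1 z hz h
  · exact hN x hx.2 y hy.2 z hz h

theorem IsMod.union {M N : Set V} (hM : IsMod G M) (hN : IsMod G N) (h : (M ∩ N).Nonempty) :
    IsMod G (M ∪ N) := by
  obtain ⟨b, hbM, hbN⟩ := h
  intro x hx y hy z hz hxz
  rw [Set.mem_union, not_or] at hz
  have hbz : G.Adj b z := by
    rcases hx with hx | hx
    · exact hM x hx b hbM z hz.1 hxz
    · exact hN x hx b hbN z hz.2 hxz
  rcases hy with hy | hy
  · exact hM b hbM y hy z hz.1 hbz
  · exact hN b hbN y hy z hz.2 hbz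

/-- Complements: a module of `G` is a module of `Gᶜ`. -/
theorem IsMod.compl {M : Set V} (hM : IsMod G M) : IsMod Gᶜ M := by
  intro x hx y hy z hz hxz
  rw [SimpleGraph.compl_adj] at hxz ⊢
  refine ⟨fun h => hz (h ▸ hy), fun h => hxz.2 (hM y hy x hx z hz h)⟩

/-- No edge leaves `A`: then `A` is empty or everything, if the graph is connected. -/
theorem eq_univ_of_closed {H : SimpleGraph V} (hH : H.Connected) {A : Set V}
    (hne : A.Nonempty) (hcl : ∀ a ∈ A, ∀ b ∉ A, ¬ H.Adj a b) : A = Set.univ := by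
  obtain ⟨a, ha⟩ := hne
  rw [Set.eq_univ_iff_forall]
  intro b
  obtain ⟨w⟩ := hH.preconnected a b
  induction w with
  | nil => exact ha
  | cons h p ih =>
    refine ih ?_
    by_contra hc
    exact hcl _ ha _ hc h

/-- Two proper modules with a common vertex do not cover everything, if `G` and its complement are
connected. -/
theorem IsMod.union_ne_univ (hG : G.Connected) (hGc : Gᶜ.Connected) {M N : Set V}
    (hM : IsMod G M) (hN : IsMod G N) (hMu : M ≠ Set.univ) (hNu : N ≠ Set.univ)
    (_h : (M ∩ N).Nonempty) : M ∪ N ≠ Set.univ := by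
  intro hcov
  have hcov' : ∀ v, v ∈ M ∨ v ∈ N := fun v => by
    have : v ∈ M ∪ N := hcov ▸ Set.mem_univ v
    exact this
  obtain ⟨a, ha⟩ := (Set.ne_univ_iff_exists_notMem N).1 hNu
  obtain ⟨c, hc⟩ := (Set.ne_univ_iff_exists_notMem M).1 hMu
  have haM : a ∈ M := (hcov' a).resolve_right ha
  have hcN : c ∈ N := (hcov' c).resolve_left hc
  -- all pairs between the complement of `N` and `N` behave like `(a, c)`
  have key : ∀ a' ∉ N, ∀ n ∈ N, (G.Adj a' n ↔ G.Adj a c) := by
    intro a' ha' n hn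
    have ha'M : a' ∈ M := (hcov' a').resolve_right ha'
    constructor
    · intro h
      have h1 : G.Adj c a' := hN n hn c hcN a' ha' h.symm
      exact hM a' ha'M a haM c hc h1.symm
    · intro h
      have h1 : G.Adj a' c := hM a haM a' ha'M c hc h
      exact (hN c hcN n hn a' ha' h1.symm).symm
  have hne : (Nᶜ : Set V).Nonempty := ⟨a, ha⟩
  by_cases hac : G.Adj a c
  · have := eq_univ_of_closed hGc hne (A := Nᶜ) (by
      intro a' ha' b hb
      rw [SimpleGraph.compl_adj]
      intro h
      exact h.2 ((key a' ha' b (by simpa using hb)).2 hac))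
    have hc' : c ∈ (Nᶜ : Set V) := this ▸ Set.mem_univ c
    exact hc' hcN
  · have := eq_univ_of_closed hG hne (A := Nᶜ) (by
      intro a' ha' b hb h
      exact hac ((key a' ha' b (by simpa using hb)).1 h))
    have hc' : c ∈ (Nᶜ : Set V) := this ▸ Set.mem_univ c
    exact hc' hcN

theorem Rel.refl [Nontrivial V] (x : V) : Rel G x x := by
  rw [rel_iff]
  obtain ⟨y, hy⟩ := exists_ne x
  exact ⟨{x}, IsMod.singleton x, (Set.ne_univ_iff_exists_notMem _).2 ⟨y, hy⟩, rfl, rfl⟩

theorem Rel.trans (hG : G.Connected) (hGc : Gᶜ.Connected) {x y z : V} (h1 : Rel G x y)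
    (h2 : Rel G y z) : Rel G x z := by
  rw [rel_iff] at h1 h2 ⊢
  obtain ⟨M, hM, hMu, hx, hy⟩ := h1
  obtain ⟨N, hN, hNu, hy', hz⟩ := h2
  exact ⟨M ∪ N, hM.union hN ⟨y, hy, hy'⟩, hM.union_ne_univ hG hGc hN hMu hNu ⟨y, hy, hy'⟩,
    Or.inl hx, Or.inr hz⟩

/-- The equivalence relation in a common proper module. -/
theorem rel_equivalence [Nontrivial V] (hG : G.Connected) (hGc : Gᶜ.Connected) :
    Equivalence (Rel G) := ⟨Rel.refl, Rel.symm, Rel.trans hG hGc⟩

variable (G) in
/-- The class of `x`. -/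
def Cls (x : V) : Set V := {y | Rel G x y}

theorem mem_cls {x y : V} : y ∈ Cls G x ↔ Rel G x y := Iff.rfl

theorem self_mem_cls [Nontrivial V] (x : V) : x ∈ Cls G x := Rel.refl x

/-- The class of `x` contains every proper module that contains `x`. -/
theorem IsMod.subset_cls {M : Set V} (hM : IsMod G M) (hMu : M ≠ Set.univ) {x : V} (hx : x ∈ M) :
    M ⊆ Cls G x := fun _ hy => rel_iff.2 ⟨M, hM, hMu, hx, hy⟩

/-- The classes are modules. -/
theorem isMod_cls [Nontrivial V] (hG : G.Connected) (hGc : Gᶜ.Connected) (x : V) :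
    IsMod G (Cls G x) := by
  intro u hu v hv z hz h
  have huv : Rel G u v := Rel.trans hG hGc (Rel.symm hu) hv
  obtain ⟨M, hM, hMu, huM, hvM⟩ := rel_iff.1 huv
  have hzM : z ∉ M := fun hzM => hz (Rel.trans hG hGc hu (hM.subset_cls hMu huM hzM))
  exact hM u huM v hvM z hzM h

theorem cls_eq_iff [Nontrivial V] (hG : G.Connected) (hGc : Gᶜ.Connected) {x y : V} :
    Cls G x = Cls G y ↔ Rel G x y := by
  constructor
  · intro h
    have : y ∈ Cls G x := h ▸ self_mem_cls y
    exact this
  · intro h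
    ext z
    exact ⟨fun hz => Rel.trans hG hGc h.symm hz, fun hz => Rel.trans hG hGc h hz⟩

/-- The fibres of `Cls G` are modules, in the form used by `ModularKernel.modularKernel`. -/
theorem cls_mod [Nontrivial V] (hG : G.Connected) (hGc : Gᶜ.Connected) (x y z : V)
    (hxy : Cls G x = Cls G y) (hz : Cls G z ≠ Cls G x) (h : G.Adj x z) : G.Adj y z := by
  refine isMod_cls hG hGc x x (self_mem_cls x) y ?_ z ?_ h
  · exact hxy ▸ self_mem_cls y
  · intro hzx
    exact hz ((cls_eq_iff hG hGc).2 (Rel.symm hzx))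

/-- The class of `x` is a proper module, if `V` is finite (or just if it is finitely generated). -/
theorem cls_ne_univ [Finite V] [Nontrivial V] (hG : G.Connected) (hGc : Gᶜ.Connected) (x : V) :
    Cls G x ≠ Set.univ := by
  classical
  cases nonempty_fintype V
  -- a proper module containing `x` with the largest number of elements
  obtain ⟨M, ⟨hM, hMu, hx⟩, hmax⟩ : ∃ M : Set V, (IsMod G M ∧ M ≠ Set.univ ∧ x ∈ M) ∧
      ∀ N : Set V, (IsMod G N ∧ N ≠ Set.univ ∧ x ∈ N) → N.ncard ≤ M.ncard := by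
    have hfin : {M : Set V | IsMod G M ∧ M ≠ Set.univ ∧ x ∈ M}.Finite := Set.toFinite _
    have hne : {M : Set V | IsMod G M ∧ M ≠ Set.univ ∧ x ∈ M}.Nonempty := by
      obtain ⟨y, hy⟩ := exists_ne x
      exact ⟨{x}, IsMod.singleton x, (Set.ne_univ_iff_exists_notMem _).2 ⟨y, hy⟩, rfl⟩
    obtain ⟨M, hM, hmax⟩ := Set.exists_max_image _ (fun M : Set V => M.ncard) hfin hne
    exact ⟨M, hM, fun N hN => hmax N hN⟩
  have hsub : Cls G x ⊆ M := by
    intro y hy
    obtain ⟨N, hN, hNu, hxN, hyN⟩ := rel_iff.1 hy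
    have h1 := hmax (M ∪ N) ⟨hM.union hN ⟨x, hx, hxN⟩,
      hM.union_ne_univ hG hGc hN hMu hNu ⟨x, hx, hxN⟩, Or.inl hx⟩
    have h2 : M = M ∪ N :=
      Set.eq_of_subset_of_ncard_le Set.subset_union_left h1 (Set.toFinite _)
    rw [h2]
    exact Or.inr hyN
  intro h
  rw [h, Set.univ_subset_iff] at hsub
  exact hMu hsub

/-- There are at least two classes. -/
theorem exists_cls_ne [Finite V] [Nontrivial V] (hG : G.Connected) (hGc : Gᶜ.Connected) (x : V) :
    ∃ y, Cls G y ≠ Cls G x := by
  obtain ⟨y, hy⟩ := (Set.ne_univ_iff_exists_notMem _).1 (cls_ne_univ hG hGc x)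
  exact ⟨y, fun h => hy (h ▸ self_mem_cls y)⟩

/-- Summary: the classes are the maximal proper modules and partition the vertex set. -/
theorem partition [Finite V] [Nontrivial V] (hG : G.Connected) (hGc : Gᶜ.Connected) :
    Equivalence (Rel G) ∧ ∀ x, IsMod G (Cls G x) ∧ Cls G x ≠ Set.univ ∧ x ∈ Cls G x ∧
      ∀ M, IsMod G M → M ≠ Set.univ → x ∈ M → M ⊆ Cls G x :=
  ⟨rel_equivalence hG hGc, fun x => ⟨isMod_cls hG hGc x, cls_ne_univ hG hGc x, self_mem_cls x,
    fun _ hM hMu hx => hM.subset_cls hMu hx⟩⟩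

/-- Adjacency between different classes does not depend on the representatives. -/
theorem adj_congr [Nontrivial V] (hG : G.Connected) (hGc : Gᶜ.Connected) {x x' y y' : V}
    (hx : Cls G x = Cls G x') (hy : Cls G y = Cls G y') (hne : Cls G x ≠ Cls G y) :
    G.Adj x y ↔ G.Adj x' y' := by
  constructor
  · intro h
    have h1 : G.Adj x' y := cls_mod hG hGc x x' y hx (fun h => hne h.symm) h
    exact (cls_mod hG hGc y y' x' hy (fun h => hne (hx.trans h)) h1.symm).symm
  · intro h
    have h1 : G.Adj x y' := cls_mod hG hGc x' x y' hx.symm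
      (fun h => hne (by rw [hx, ← h, hy])) h
    exact (cls_mod hG hGc y' y x hy.symm (fun h => hne (by rw [h, hy])) h1.symm).symm

/-- If every vertex has few classes ... : a partition into modules with at least two parts refines
into the classes; in particular the number of classes is at most the number of parts of any
partition of `V` into (at least two) proper modules. -/
theorem cls_factor {ι : Type*} [Nontrivial V] (π : V → ι)
    (hmod : ∀ x y z, π x = π y → π z ≠ π x → G.Adj x z → G.Adj y z)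
    (hne : ∀ x, ∃ y, π y ≠ π x) (hG : G.Connected) (hGc : Gᶜ.Connected) {x y : V}
    (h : π x = π y) : Cls G x = Cls G y := by
  rw [cls_eq_iff hG hGc, rel_iff]
  refine ⟨{z | π z = π x}, ?_, ?_, rfl, h.symm⟩
  · intro u hu v hv z hz huz
    simp only [Set.mem_ofPred_eq] at hu hv hz
    exact hmod u v z (hu.trans hv.symm) (fun h => hz (h.trans hu)) huz
  · obtain ⟨y, hy⟩ := hne x
    exact (Set.ne_univ_iff_exists_notMem _).2 ⟨y, hy⟩

theorem ncard_range_cls_le {ι : Type*} [Nontrivial V] [Finite V] (π : V → ι)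
    (hmod : ∀ x y z, π x = π y → π z ≠ π x → G.Adj x z → G.Adj y z)
    (hne : ∀ x, ∃ y, π y ≠ π x) (hG : G.Connected) (hGc : Gᶜ.Connected) :
    (Set.range (Cls G)).ncard ≤ (Set.range π).ncard := by
  classical
  have hf : ∀ i ∈ Set.range π, ∃ c, ∀ x, π x = i → Cls G x = c := by
    rintro i ⟨x, rfl⟩
    exact ⟨Cls G x, fun y hy => cls_factor π hmod hne hG hGc hy⟩
  choose! f hf using hf
  have himg : Set.range (Cls G) = f '' Set.range π := by
    ext c
    constructor
    · rintro ⟨x, rfl⟩
      exact ⟨π x, ⟨x, rfl⟩, (hf (π x) ⟨x, rfl⟩ x rfl).symm⟩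
    · rintro ⟨i, ⟨x, rfl⟩, rfl⟩
      exact ⟨x, hf (π x) ⟨x, rfl⟩ x rfl⟩
  rw [himg]
  exact Set.ncard_image_le (Set.toFinite _)

end Pool.Agent.Lib.MP_37c7bf_co_Mod

end ModulesPart

section SpecPart

/-!
# The acceptance condition of the machine for graphs with a small modular partition

Everything is written for a relation `A` (the adjacency relation), so that the conditions can be
evaluated by the machine.
-/

set_option autoImplicit false

namespace Pool.Agent.Lib.MP_37c7bf_co_Mod

open Function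

variable {V : Type*}

/-- `E` is an equivalence relation whose classes are modules, and every vertex has three neighbours
outside its class. -/
def Good (A : V → V → Prop) (E : V → V → Prop) : Prop :=
  (∀ x, E x x) ∧ (∀ x y, E x y → E y x) ∧ (∀ x y z, E x y → E y z → E x z) ∧
  (∀ x y z, E x y → ¬ E x z → A x z → A y z) ∧
  ∀ x, ∃ c : Fin 3 → V, Injective c ∧ ∀ l, ¬ E x (c l) ∧ A x (c l)

/-- Some at most `K` vertices contain enough vertices and edges of each class, and induce a
subgraph with the property `gr`. -/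
def KerAcc (A : V → V → Prop) (E : V → V → Prop) (gr : ∀ m, SimpleGraph (Fin m) → Prop)
    (K : ℕ) : Prop :=
  ∃ (m : Fin (K + 1)) (H : SimpleGraph (Fin m)), gr m H ∧ ∃ x : Fin m → V, Injective x ∧
    (∀ i j, H.Adj i j ↔ A (x i) (x j)) ∧
    (∀ v, (∃ c : Fin 6 → Fin m, Injective c ∧ ∀ l, E v (x (c l))) ∨
      ∀ z, E v z → ∃ i, x i = z) ∧
    ∀ v, (∃ c d : Fin 3 → Fin m, (∀ l, A (x (c l)) (x (d l)) ∧ E v (x (c l)) ∧ E v (x (d l))) ∧
        ∀ l l', l ≠ l' → ¬ (c l = c l' ∧ d l = d l') ∧ ¬ (c l = d l' ∧ d l = c l')) ∨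
      ∀ z z', E v z → E v z' → A z z' → (∃ i, x i = z) ∧ ∃ i, x i = z'

/-- Adjacency in the graph without the vertices `a`, `b` and the edge `uv`. -/
def Link (A : V → V → Prop) (a b u v x y : V) : Prop :=
  A x y ∧ x ≠ a ∧ x ≠ b ∧ y ≠ a ∧ y ≠ b ∧ ¬ (x = u ∧ y = v) ∧ ¬ (x = v ∧ y = u)

/-- Two vertices `a`, `b` are adjacent to all others, the rest is connected and, if `a` and `b` are
not adjacent, contains a cycle. Here `P a b u v` is the reachability relation of
`Link A a b u v`. -/
def ExcAcc (A : V → V → Prop) (P : V → V → V → V → V → V → Prop) : Prop :=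
  ∃ a b, a ≠ b ∧ (∀ v, v ≠ a → v ≠ b → A v a ∧ A v b) ∧
    (∀ x y, x ≠ a → x ≠ b → y ≠ a → y ≠ b → P a b a b x y) ∧
    (A a b ∨ ∃ u v, u ≠ a ∧ u ≠ b ∧ v ≠ a ∧ v ≠ b ∧ A u v ∧ P a b u v u v)

/-- Different nonadjacent vertices. -/
def CoAdj (A : V → V → Prop) (u v : V) : Prop := u ≠ v ∧ ¬ A u v

/-- `x` and `y` lie on the same side of the bipartition given by the class of `x₀`. -/
def Side (Q : V → V → Prop) (x₀ x y : V) : Prop := (Q x₀ x ↔ Q x₀ y)

/-- The acceptance condition. `R` is the relation `Rel G`, `P` and `Q` are reachability relations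
of `Link` and of `CoAdj`. -/
def ModAcc (A : V → V → Prop) (R : V → V → Prop) (P : V → V → V → V → V → V → Prop)
    (Q : V → V → Prop) (gr : ∀ m, SimpleGraph (Fin m) → Prop) (K : ℕ) : Prop :=
  ExcAcc A P ∨ (Good A R ∧ KerAcc A R gr K) ∨
    ∃ x₀, Good A (Side Q x₀) ∧ KerAcc A (Side Q x₀) gr K

/-- The acceptance condition for a graph. -/
def Accepts (G : SimpleGraph V) (gr : ∀ m, SimpleGraph (Fin m) → Prop) (K : ℕ) : Prop :=
  ModAcc G.Adj (Rel G) (fun a b u v => Relation.ReflTransGen (Link G.Adj a b u v))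
    (Relation.ReflTransGen (CoAdj G.Adj)) gr K

end Pool.Agent.Lib.MP_37c7bf_co_Mod

end SpecPart
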