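import Pool.Agent.Lib.MP_37c7bf_co_helper26.Kernel
import Pool.Agent.Lib.MP_37c7bf_co_Mod.Spec

section DegeneratePart

/-!
# Degenerate cases of the recursion over modules

`not_rigid_of_not_preconnected`: a disconnected graph on at least four vertices is not generically
rigid. `rigid_iff_of_two`: the case of two vertices adjacent to all others.
-/

set_option autoImplicit false

namespace Pool.Agent.Lib.MP_37c7bf_co_Mod

open Module Pool.Agent.H26R

/-- Generic rigidity is invariant under isomorphisms. -/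
theorem rigid_congr {T T' : Type*} [Fintype T] [Fintype T'] {Γ : SimpleGraph T}
    {Γ' : SimpleGraph T'} (φ : Γ ≃g Γ') (hT : 4 ≤ Fintype.card T) :
    GenericallyRigid Γ ↔ GenericallyRigid Γ' := by
  have hT' : 4 ≤ Fintype.card T' := by rw [← Fintype.card_congr φ.toEquiv]; exact hT
  rw [genericallyRigid_iff hT, genericallyRigid_iff hT']
  exact ⟨fun h => exists_of_iso φ h, fun h => exists_of_iso φ.symm h⟩

/-- A disconnected graph on at least four vertices is not generically rigid. -/
theorem not_rigid_of_not_preconnected {T : Type*} [Fintype T] {Γ : SimpleGraph T}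
    (hT : 4 ≤ Fintype.card T) (h : ¬ Γ.Preconnected) : ¬ GenericallyRigid Γ := by
  unfold SimpleGraph.Preconnected at h
  push Not at h
  obtain ⟨x, y, hxy⟩ := h
  have hpx : Γ.Reachable x x := SimpleGraph.Reachable.refl x
  refine flexible_of_small Γ (fun z => (Γ.Reachable x z : Prop)) hT ?_ (x := x) (y := y) ?_ ?_ ?_
  · intro u v z huv hzu hadj
    exfalso
    apply hzu
    apply propext
    exact ⟨fun h => h.trans hadj.symm.reachable, fun h => h.trans hadj.reachable⟩
  · intro h
    exact hxy (h.symm ▸ hpx)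
  · intro h
    exact hxy h.reachable
  · have : {z | (Γ.Reachable x z : Prop) ≠ (Γ.Reachable x x : Prop) ∧ Γ.Adj x z} = ∅ := by
      rw [Set.eq_empty_iff_forall_notMem]
      rintro z ⟨h1, h2⟩
      exact h1 (propext ⟨fun _ => hpx, fun _ => h2.reachable⟩)
    rw [this, Set.ncard_empty]
    exact Nat.zero_le _

theorem not_rigid_of_not_connected {T : Type*} [Fintype T] {Γ : SimpleGraph T}
    (hT : 4 ≤ Fintype.card T) (h : ¬ Γ.Connected) : ¬ GenericallyRigid Γ := by
  apply not_rigid_of_not_preconnected hT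
  intro h'
  have : Nonempty T := Fintype.card_pos_iff.1 (by omega)
  exact h ⟨h'⟩

section
variable {T : Type*} {Γ : SimpleGraph T} (S : Set T)

/-- A graph is the join of two induced subgraphs if all pairs between the two parts are
adjacent. -/
noncomputable def isoJoin (h : ∀ x ∈ S, ∀ y ∉ S, Γ.Adj x y) :
    jn (Γ.induce S) (Γ.induce Sᶜ) ≃g Γ := by
  classical
  exact
  { toEquiv := Equiv.Set.sumCompl S
    map_rel_iff' := by
      rintro (a | a) (b | b)
      · simp
      · simp [h a.1 a.2 b.1 b.2]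
      · simp [(h b.1 b.2 a.1 a.2).symm]
      · simp }

end

/-- Connected graphs: a cycle exists iff there are at least as many edges as vertices. -/
theorem not_isAcyclic_iff {T : Type*} [Finite T] {F : SimpleGraph T} (hF : F.Connected) :
    ¬ F.IsAcyclic ↔ Nat.card T ≤ F.edgeSet.ncard := by
  classical
  have := Fintype.ofFinite T
  have h1 : F.edgeSet.ncard = F.edgeFinset.card := by
    rw [Set.ncard_eq_toFinset_card', SimpleGraph.edgeFinset]
  have h2 : F.IsAcyclic ↔ F.edgeFinset.card + 1 = Nat.card T := by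
    constructor
    · intro h
      have := (SimpleGraph.IsTree.mk hF h).card_edgeFinset
      rw [Nat.card_eq_fintype_card]
      exact this
    · intro h
      have h3 : F.IsTree := by
        rw [SimpleGraph.isTree_iff_connected_and_card]
        refine ⟨hF, ?_⟩
        rw [← h, Nat.card_eq_fintype_card, SimpleGraph.edgeFinset, Set.toFinset_card]
      exact h3.2
  have h3 : Nat.card T ≤ F.edgeFinset.card + 1 := by
    have := hF.card_vert_le_card_edgeSet_add_one
    rwa [Nat.card_eq_fintype_card (α := F.edgeSet), ← Set.toFinset_card] at this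
  rw [h1, h2]
  omega

/-- A cycle exists iff some edge joins two vertices that are connected without it. -/
theorem not_isAcyclic_iff_edge {T : Type*} {F : SimpleGraph T} :
    ¬ F.IsAcyclic ↔ ∃ u v, F.Adj u v ∧ (F.deleteEdges {s(u, v)}).Reachable u v := by
  rw [SimpleGraph.isAcyclic_iff_forall_adj_isBridge]
  push Not
  simp only [SimpleGraph.isBridge_iff, not_not]

/-- **Two vertices adjacent to all others.** -/
theorem rigid_iff_of_two {T : Type*} [Fintype T] {Γ : SimpleGraph T} {a b : T}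
    (hT : 4 ≤ Fintype.card T) (hab : a ≠ b) (h : ∀ v, v ≠ a → v ≠ b → Γ.Adj v a ∧ Γ.Adj v b) :
    GenericallyRigid Γ ↔ (Γ.induce {v | v ≠ a ∧ v ≠ b}).Connected ∧
      (Γ.Adj a b ∨ ¬ (Γ.induce {v | v ≠ a ∧ v ≠ b}).IsAcyclic) := by
  classical
  obtain ⟨S, hS⟩ : ∃ S : Set T, S = {v | v ≠ a ∧ v ≠ b} := ⟨_, rfl⟩
  rw [← hS]
  have hSc : ∀ y, y ∉ S → y = a ∨ y = b := by
    intro y hy
    by_contra hcon
    push Not at hcon
    exact hy (by rw [hS]; exact hcon)
  have haS : a ∉ S := by rw [hS]; simp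
  have hbS : b ∉ S := by rw [hS]; simp
  have hall : ∀ x ∈ S, ∀ y ∉ S, Γ.Adj x y := by
    intro x hx y hy
    rw [hS] at hx
    obtain ⟨h1, h2⟩ := h x hx.1 hx.2
    rcases hSc y hy with rfl | rfl
    · exact h1
    · exact h2
  have hcardc : Fintype.card (↥Sᶜ) = 2 := by
    have : Sᶜ = {a, b} := by
      ext y
      simp only [Set.mem_compl_iff, Set.mem_insert_iff, Set.mem_singleton_iff]
      constructor
      · exact hSc y
      · rintro (rfl | rfl)
        · exact haS
        · exact hbS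
    rw [← Nat.card_eq_fintype_card, this, Nat.card_coe_set_eq, Set.ncard_pair hab]
  have hcard : Fintype.card S + Fintype.card (↥Sᶜ) = Fintype.card T := by
    rw [← Fintype.card_sum]
    exact Fintype.card_congr (Equiv.Set.sumCompl S)
  have hne : (Γ.induce Sᶜ ≠ ⊥) ↔ Γ.Adj a b := by
    constructor
    · intro hn
      obtain ⟨x, y, hxy⟩ := SimpleGraph.ne_bot_iff_exists_adj.mp hn
      have hxy' : Γ.Adj x.1 y.1 := hxy
      rcases hSc x.1 x.2 with h1 | h1 <;> rcases hSc y.1 y.2 with h2 | h2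
      · rw [h1, h2] at hxy'; exact absurd rfl hxy'.ne
      · rw [h1, h2] at hxy'; exact hxy'
      · rw [h1, h2] at hxy'; exact hxy'.symm
      · rw [h1, h2] at hxy'; exact absurd rfl hxy'.ne
    · intro hadj hbot
      have h1 : (Γ.induce Sᶜ).Adj ⟨a, haS⟩ ⟨b, hbS⟩ := hadj
      rw [hbot] at h1
      exact h1
  rw [← rigid_congr (isoJoin S hall) (by rw [Fintype.card_sum, hcard]; exact hT),
    joins (Γ.induce S) (Γ.induce Sᶜ) (by omega) (by omega), hcardc, hne]
  simp

/-- Two vertices adjacent to all others, with a count of edges. -/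
theorem rigid_iff_of_two' {T : Type*} [Fintype T] {Γ : SimpleGraph T} {a b : T}
    (hT : 4 ≤ Fintype.card T) (hab : a ≠ b) (h : ∀ v, v ≠ a → v ≠ b → Γ.Adj v a ∧ Γ.Adj v b) :
    GenericallyRigid Γ ↔ (Γ.induce {v | v ≠ a ∧ v ≠ b}).Connected ∧
      (Γ.Adj a b ∨ {v | v ≠ a ∧ v ≠ b}.ncard ≤
        (Γ.induce {v | v ≠ a ∧ v ≠ b}).edgeSet.ncard) := by
  rw [rigid_iff_of_two hT hab h]
  constructor
  · rintro ⟨h1, h2⟩
    refine ⟨h1, h2.imp id fun h3 => ?_⟩
    rw [not_isAcyclic_iff h1] at h3
    exact h3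
  · rintro ⟨h1, h2⟩
    refine ⟨h1, h2.imp id fun h3 => ?_⟩
    rw [not_isAcyclic_iff h1]
    exact h3

end Pool.Agent.Lib.MP_37c7bf_co_Mod

end DegeneratePart

section ExcPart

/-!
# The exceptional case of two vertices adjacent to all others
-/

set_option autoImplicit false

namespace Pool.Agent.Lib.MP_37c7bf_co_Mod

open Function Pool.Agent.H26R

/-- Reachability in a graph on a subset as a reflexive transitive closure. -/
theorem reachable_iff_gen {V : Type*} {S : Set V} {F : SimpleGraph S} {L : V → V → Prop}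
    (hL : ∀ x y, L x y → x ∈ S ∧ y ∈ S) (hF : ∀ x y : S, F.Adj x y ↔ L x.1 y.1) (x y : S) :
    F.Reachable x y ↔ Relation.ReflTransGen L x.1 y.1 := by
  constructor
  · rintro ⟨p⟩
    induction p with
    | nil => exact Relation.ReflTransGen.refl
    | cons h _ ih => exact Relation.ReflTransGen.head ((hF _ _).mp h) ih
  · intro h
    have key : ∀ z, Relation.ReflTransGen L x.1 z → ∃ hz : z ∈ S, F.Reachable x ⟨z, hz⟩ := by
      intro z hz
      induction hz with
      | refl => exact ⟨x.2, SimpleGraph.Reachable.refl _⟩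
      | tail _ h2 ih =>
        obtain ⟨h3, h4⟩ := ih
        obtain ⟨-, h5⟩ := hL _ _ h2
        exact ⟨h5, h4.trans (SimpleGraph.Adj.reachable ((hF ⟨_, h3⟩ ⟨_, h5⟩).mpr h2))⟩
    obtain ⟨_, h1⟩ := key _ h
    exact h1

section
variable {V : Type*} {G : SimpleGraph V} {a b : V}

theorem reachable_link {x y : V} (hx : x ≠ a ∧ x ≠ b) (hy : y ≠ a ∧ y ≠ b) :
    (G.induce {v | v ≠ a ∧ v ≠ b}).Reachable ⟨x, hx⟩ ⟨y, hy⟩ ↔
      Relation.ReflTransGen (Link G.Adj a b a b) x y := by
  refine reachable_iff_gen (L := Link G.Adj a b a b) ?_ ?_ ⟨x, hx⟩ ⟨y, hy⟩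
  · rintro x y ⟨-, h1, h2, h3, h4, -⟩
    exact ⟨⟨h1, h2⟩, ⟨h3, h4⟩⟩
  · rintro ⟨x, h1, h2⟩ ⟨y, h3, h4⟩
    constructor
    · intro h
      exact ⟨h, h1, h2, h3, h4, fun h5 => h1 h5.1, fun h5 => h2 h5.1⟩
    · intro h
      exact h.1

theorem reachable_link_edge {u v : V} (hu : u ≠ a ∧ u ≠ b) (hv : v ≠ a ∧ v ≠ b) {x y : V}
    (hx : x ≠ a ∧ x ≠ b) (hy : y ≠ a ∧ y ≠ b) :
    ((G.induce {v | v ≠ a ∧ v ≠ b}).deleteEdges {s(⟨u, hu⟩, ⟨v, hv⟩)}).Reachable
      ⟨x, hx⟩ ⟨y, hy⟩ ↔ Relation.ReflTransGen (Link G.Adj a b u v) x y := by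
  refine reachable_iff_gen (L := Link G.Adj a b u v) ?_ ?_ ⟨x, hx⟩ ⟨y, hy⟩
  · rintro x y ⟨-, h1, h2, h3, h4, -⟩
    exact ⟨⟨h1, h2⟩, ⟨h3, h4⟩⟩
  · rintro ⟨x, h1, h2⟩ ⟨y, h3, h4⟩
    rw [SimpleGraph.deleteEdges_adj, Set.mem_singleton_iff, Sym2.eq_iff]
    simp only [Subtype.mk.injEq]
    constructor
    · rintro ⟨h, h5⟩
      push Not at h5
      exact ⟨h, h1, h2, h3, h4, fun h6 => h5.1 h6.1 h6.2, fun h6 => h5.2 h6.1 h6.2⟩
    · rintro ⟨h, -, -, -, -, h5, h6⟩
      refine ⟨h, ?_⟩
      rintro (h7 | h7)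
      · exact h5 h7
      · exact h6 h7

end

/-- The exceptional condition implies generic rigidity. -/
theorem excAcc_sound {V : Type*} [Fintype V] (G : SimpleGraph V) (hV : 4 ≤ Fintype.card V)
    (h : ExcAcc G.Adj (fun a b u v => Relation.ReflTransGen (Link G.Adj a b u v))) :
    GenericallyRigid G := by
  classical
  obtain ⟨a, b, hab, h1, h2, h3⟩ := h
  rw [rigid_iff_of_two hV hab h1]
  have hne : Nonempty {v | v ≠ a ∧ v ≠ b} := by
    by_contra hcon
    have h4 : (Finset.univ : Finset V) ⊆ {a, b} := by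
      intro x _
      rw [Finset.mem_insert, Finset.mem_singleton]
      by_contra h5
      push Not at h5
      exact hcon ⟨⟨x, h5⟩⟩
    have h5 := (Finset.card_le_card h4).trans Finset.card_le_two
    rw [Finset.card_univ] at h5
    omega
  refine ⟨⟨?_⟩, ?_⟩
  · rintro ⟨x, hx⟩ ⟨y, hy⟩
    rw [reachable_link hx hy]
    exact h2 x y hx.1 hx.2 hy.1 hy.2
  · refine h3.imp id ?_
    rintro ⟨u, v, h4, h5, h6, h7, h8, h9⟩
    rw [not_isAcyclic_iff_edge]
    refine ⟨⟨u, h4, h5⟩, ⟨v, h6, h7⟩, h8, ?_⟩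
    rw [reachable_link_edge ⟨h4, h5⟩ ⟨h6, h7⟩]
    exact h9

/-- Generic rigidity implies the exceptional condition if two vertices are adjacent to all
others. -/
theorem excAcc_complete {V : Type*} [Fintype V] (G : SimpleGraph V) (hV : 4 ≤ Fintype.card V)
    {a b : V} (hab : a ≠ b) (h : ∀ v, v ≠ a → v ≠ b → G.Adj v a ∧ G.Adj v b)
    (hG : GenericallyRigid G) :
    ExcAcc G.Adj (fun a b u v => Relation.ReflTransGen (Link G.Adj a b u v)) := by
  rw [rigid_iff_of_two hV hab h] at hG
  obtain ⟨h1, h2⟩ := hG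
  refine ⟨a, b, hab, h, fun x y hx1 hx2 hy1 hy2 => ?_, ?_⟩
  · exact (reachable_link ⟨hx1, hx2⟩ ⟨hy1, hy2⟩).mp (h1.preconnected _ _)
  · refine h2.imp id fun h3 => ?_
    rw [not_isAcyclic_iff_edge] at h3
    obtain ⟨⟨u, hu⟩, ⟨v, hv⟩, h4, h5⟩ := h3
    refine ⟨u, v, hu.1, hu.2, hv.1, hv.2, h4, ?_⟩
    rw [reachable_link_edge hu hv] at h5
    exact h5

end Pool.Agent.Lib.MP_37c7bf_co_Mod

end ExcPart

section GoodPartsPart

/-!
# The two canonical partitions of a rigid graph into modules

For a generically rigid graph without a universal vertex and without two vertices adjacent to all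
others: the maximal proper modules (if the complement is connected) and the bipartition given by a
class of the complement (if the complement is disconnected) are good.
-/

set_option autoImplicit false

namespace Pool.Agent.Lib.MP_37c7bf_co_Mod

open Function Pool.Agent.H26R

theorem exists_inj_of_le_ncard {V : Type*} [Finite V] {S : Set V} {n : ℕ} (h : n ≤ S.ncard) :
    ∃ c : Fin n → V, Injective c ∧ ∀ l, c l ∈ S := by
  classical
  cases nonempty_fintype V
  rw [Set.ncard_eq_toFinset_card'] at h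
  obtain ⟨t, ht, hcard⟩ := Finset.exists_subset_card_eq h
  refine ⟨fun l => (t.equivFin.symm (l.cast hcard.symm) : V), ?_, ?_⟩
  · intro l l' hll
    have h1 := t.equivFin.symm.injective (Subtype.ext hll)
    simpa using h1
  · intro l
    have := ht (t.equivFin.symm (l.cast hcard.symm)).2
    simpa using this

section
variable {V : Type} [Fintype V] (G : SimpleGraph V)

/-- The relation of lying in a common proper module is good. -/
theorem good_rel (hV : 4 ≤ Fintype.card V) (hrig : GenericallyRigid G) (hGc : Gᶜ.Connected) :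
    Good G.Adj (Rel G) := by
  classical
  have hG : G.Connected := by
    by_contra h
    exact not_rigid_of_not_connected hV h hrig
  have hnt : Nontrivial V := Fintype.one_lt_card_iff_nontrivial.1 (by omega)
  obtain ⟨h1, h2, h3⟩ := rel_equivalence hG hGc
  refine ⟨h1, fun x y => h2, fun x y z => h3, ?_, ?_⟩
  · intro x y z hxy hxz hadj
    exact isMod_cls hG hGc x x (self_mem_cls x) y hxy z hxz hadj
  · intro x
    -- a vertex outside the class of `x` that is not adjacent to `x`
    obtain ⟨y, hy, hxy⟩ : ∃ y, ¬ Rel G x y ∧ ¬ G.Adj x y := by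
      by_contra hcon
      push Not at hcon
      refine cls_ne_univ hG hGc x (eq_univ_of_closed hGc ⟨x, self_mem_cls x⟩ ?_)
      intro a ha b hb hab
      rw [SimpleGraph.compl_adj] at hab
      exact hab.2 (isMod_cls hG hGc x x (self_mem_cls x) a ha b hb (hcon b hb))
    by_contra hcon
    refine flexible_of_small G (Cls G) hV (cls_mod hG hGc) (x := x) (y := y) ?_ hxy ?_ hrig
    · intro h
      exact hy ((cls_eq_iff hG hGc).1 h.symm)
    · by_contra hlt
      obtain ⟨c, hc, hc'⟩ := exists_inj_of_le_ncard (n := 3) (Nat.lt_of_not_le hlt)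
      exact hcon ⟨c, hc, fun l => ⟨fun h => (hc' l).1 ((cls_eq_iff hG hGc).2 (h2 h)),
        (hc' l).2⟩⟩

omit [Fintype V] in
variable {G} in
/-- Vertices on different sides are adjacent. -/
theorem adj_of_not_side {x₀ x z : V} (h : ¬ Side (Relation.ReflTransGen (CoAdj G.Adj)) x₀ x z) :
    G.Adj x z := by
  have key : ∀ u v, Relation.ReflTransGen (CoAdj G.Adj) x₀ u →
      ¬ Relation.ReflTransGen (CoAdj G.Adj) x₀ v → G.Adj u v := by
    intro u v hu hv
    by_contra hadj
    exact hv (hu.tail ⟨fun huv => hv (huv ▸ hu), hadj⟩)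
  unfold Side at h
  by_cases hx : Relation.ReflTransGen (CoAdj G.Adj) x₀ x
  · by_cases hz : Relation.ReflTransGen (CoAdj G.Adj) x₀ z
    · exact absurd ⟨fun _ => hz, fun _ => hx⟩ h
    · exact key x z hx hz
  · by_cases hz : Relation.ReflTransGen (CoAdj G.Adj) x₀ z
    · exact (key z x hz hx).symm
    · exact absurd ⟨fun h => absurd h hx, fun h => absurd h hz⟩ h

/-- The bipartition given by a class of the complement is good. -/
theorem good_side (huni : ∀ a, ∃ v, v ≠ a ∧ ¬ G.Adj a v)
    (hex : ¬ ∃ a b, a ≠ b ∧ ∀ v, v ≠ a → v ≠ b → G.Adj v a ∧ G.Adj v b) (x₀ y₀ : V)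
    (h : ¬ Relation.ReflTransGen (CoAdj G.Adj) x₀ y₀) :
    Good G.Adj (Side (Relation.ReflTransGen (CoAdj G.Adj)) x₀) := by
  classical
  refine ⟨fun x => Iff.rfl, fun x y => Iff.symm, fun x y z => Iff.trans, ?_, ?_⟩
  · intro x y z hxy hxz _
    exact adj_of_not_side fun h => hxz (hxy.trans h)
  · intro x
    have hne : {z | ¬ Side (Relation.ReflTransGen (CoAdj G.Adj)) x₀ x z}.Nonempty := by
      by_cases hx : Relation.ReflTransGen (CoAdj G.Adj) x₀ x
      · exact ⟨y₀, fun hs => h (hs.1 hx)⟩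
      · exact ⟨x₀, fun hs => hx (hs.2 Relation.ReflTransGen.refl)⟩
    have h3 : 3 ≤ {z | ¬ Side (Relation.ReflTransGen (CoAdj G.Adj)) x₀ x z}.ncard := by
      by_contra hlt
      -- two vertices `a`, `b` of the other side exhausting it
      have hout : ∀ a v, ¬ Side (Relation.ReflTransGen (CoAdj G.Adj)) x₀ x a →
          Side (Relation.ReflTransGen (CoAdj G.Adj)) x₀ x v → G.Adj v a := by
        intro a v ha hv
        exact adj_of_not_side fun h => ha (hv.trans h)
      have hpos : 0 < {z | ¬ Side (Relation.ReflTransGen (CoAdj G.Adj)) x₀ x z}.ncard :=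
        (Set.ncard_pos (Set.toFinite _)).2 hne
      rcases (by omega : {z | ¬ Side (Relation.ReflTransGen (CoAdj G.Adj)) x₀ x z}.ncard = 1 ∨
        {z | ¬ Side (Relation.ReflTransGen (CoAdj G.Adj)) x₀ x z}.ncard = 2) with h1 | h2
      · obtain ⟨a, ha⟩ := Set.ncard_eq_one.1 h1
        have hmem : ∀ v, ¬ Side (Relation.ReflTransGen (CoAdj G.Adj)) x₀ x v ↔ v = a := by
          intro v
          have := Set.ext_iff.1 ha v
          simpa using this
        obtain ⟨v, hva, hadj⟩ := huni a
        refine hadj (hout a v ((hmem a).2 rfl) ?_).symm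
        by_contra hc
        exact hva ((hmem v).1 hc)
      · obtain ⟨a, b, hab, hS⟩ := Set.ncard_eq_two.1 h2
        have hmem : ∀ v, ¬ Side (Relation.ReflTransGen (CoAdj G.Adj)) x₀ x v ↔ v = a ∨ v = b := by
          intro v
          have := Set.ext_iff.1 hS v
          simpa using this
        refine hex ⟨a, b, hab, fun v hva hvb => ?_⟩
        have hv : Side (Relation.ReflTransGen (CoAdj G.Adj)) x₀ x v := by
          by_contra hc
          rcases (hmem v).1 hc with h | h
          · exact hva h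
          · exact hvb h
        exact ⟨hout a v ((hmem a).2 (Or.inl rfl)) hv, hout b v ((hmem b).2 (Or.inr rfl)) hv⟩
    obtain ⟨c, hc, hc'⟩ := exists_inj_of_le_ncard h3
    exact ⟨c, hc, fun l => ⟨hc' l, adj_of_not_side (hc' l)⟩⟩

variable {G} in
/-- The number of maximal proper modules is at most the number of parts of any partition into
proper modules. -/
theorem rel_classes {w : ℕ} (π : V → Fin w)
    (hmod : ∀ x y z, π x = π y → π z ≠ π x → G.Adj x z → G.Adj y z)
    (hne : ∀ x, ∃ y, π y ≠ π x) (hG : G.Connected) (hGc : Gᶜ.Connected) :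
    (Set.range fun x => {y | Rel G x y}).ncard ≤ w := by
  obtain ⟨x⟩ := hG.nonempty
  obtain ⟨y, hy⟩ := hne x
  have hnt : Nontrivial V := ⟨x, y, fun h => hy (by rw [h])⟩
  refine (ncard_range_cls_le π hmod hne hG hGc).trans ?_
  refine (Set.ncard_le_ncard (Set.subset_univ _) (Set.toFinite _)).trans ?_
  rw [Set.ncard_univ, Nat.card_eq_fintype_card, Fintype.card_fin]

omit [Fintype V] in
/-- There are at most two sides. -/
theorem side_classes [Finite V] (Q : V → V → Prop) (x₀ : V) :
    (Set.range fun x => {y | Side Q x₀ x y}).ncard ≤ 2 := by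
  have hsub : (Set.range fun x => {y | Side Q x₀ x y}) ⊆ {{y | Q x₀ y}, {y | ¬ Q x₀ y}} := by
    rintro _ ⟨x, rfl⟩
    by_cases hx : Q x₀ x
    · left
      ext y
      exact ⟨fun h => h.1 hx, fun h => ⟨fun _ => h, fun _ => hx⟩⟩
    · right
      simp only [Set.mem_singleton_iff]
      ext y
      exact ⟨fun h hy => hx (h.2 hy), fun h => ⟨fun h' => absurd h' hx, fun h' => absurd h' h⟩⟩
  refine (Set.ncard_le_ncard hsub (Set.toFinite _)).trans ?_
  refine (Set.ncard_insert_le _ _).trans ?_
  rw [Set.ncard_singleton]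

omit [Fintype V] in
variable {G} in
/-- If the complement is disconnected, then some class of it is not everything. -/
theorem exists_not_coadj [Nonempty V] (h : ¬ Gᶜ.Connected) :
    ∃ x₀ y₀, ¬ Relation.ReflTransGen (CoAdj G.Adj) x₀ y₀ := by
  by_contra hcon
  push Not at hcon
  refine h ⟨fun x y => ?_⟩
  rw [SimpleGraph.reachable_iff_reflTransGen]
  have key : ∀ z, Relation.ReflTransGen (CoAdj G.Adj) x z → Relation.ReflTransGen Gᶜ.Adj x z := by
    intro z hz
    induction hz with
    | refl => exact Relation.ReflTransGen.refl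
    | tail _ h ih => exact ih.tail ((SimpleGraph.compl_adj G _ _).2 h)
  exact key y (hcon x y)

end

end Pool.Agent.Lib.MP_37c7bf_co_Mod

end GoodPartsPart

section KerIffPart

/-!
# The kernel condition and generic rigidity
-/

set_option autoImplicit false

namespace Pool.Agent.Lib.MP_37c7bf_co_Mod

open Function Pool.Agent.H26R Pool.Agent.H26R.ModularKernel

namespace KerIff

theorem exists_injective_iff {α : Type*} [Finite α] (S : Set α) (k : ℕ) :
    k ≤ S.ncard ↔ ∃ f : Fin k → α, Injective f ∧ ∀ l, f l ∈ S := by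
  classical
  constructor
  · intro h
    have : Fintype S := Fintype.ofFinite _
    have h1 : k ≤ Fintype.card S := by
      rwa [← Nat.card_eq_fintype_card, Nat.card_coe_set_eq]
    have h2 : Fintype.card (Fin k) ≤ Fintype.card S := by rwa [Fintype.card_fin]
    obtain ⟨f⟩ := Function.Embedding.nonempty_of_card_le h2
    exact ⟨fun l => (f l : α), fun a b hab => f.injective (Subtype.ext hab), fun l => (f l).2⟩
  · rintro ⟨f, hf, hfS⟩
    have h1 : (Set.range f).ncard = k := by
      rw [← Set.image_univ, Set.ncard_image_of_injective _ hf, Set.ncard_univ, Nat.card_eq_fintype_card,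
        Fintype.card_fin]
    rw [← h1]
    exact Set.ncard_le_ncard (by rintro _ ⟨l, rfl⟩; exact hfS l) (Set.toFinite S)

theorem min_le_ncard_iff {α : Type*} [Finite α] {S C : Set α} (h : S ⊆ C) (k : ℕ) :
    min C.ncard k ≤ S.ncard ↔ (k ≤ S.ncard ∨ C ⊆ S) := by
  constructor
  · intro h1
    by_cases h2 : k ≤ S.ncard
    · exact Or.inl h2
    · right
      have h3 : C.ncard ≤ S.ncard := by
        rcases min_le_iff.1 h1 with h4 | h4
        · exact h4
        · exact absurd h4 h2
      exact (Set.eq_of_subset_of_ncard_le h h3 (Set.toFinite C)).ge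
  · rintro (h1 | h1)
    · exact (min_le_right _ _).trans h1
    · exact (min_le_left _ _).trans (Set.ncard_le_ncard h1 (Set.toFinite S))

variable {V : Type} [Fintype V] {G : SimpleGraph V} {E : V → V → Prop}

omit [Fintype V] in
theorem cls_iff (hE : Good G.Adj E) {x y : V} :
    ({z | E x z} : Set V) = {z | E y z} ↔ E y x := by
  obtain ⟨hr, hs, ht, -⟩ := hE
  constructor
  · intro h
    have : x ∈ ({z | E x z} : Set V) := hr x
    rw [h] at this
    exact this
  · intro h
    ext z
    exact ⟨fun h1 => ht _ _ _ h h1, fun h1 => ht _ _ _ (hs _ _ h) h1⟩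

/-- The vertex condition. -/
theorem vert_iff {m : ℕ} {x : Fin m → V} (hx : Injective x) (v : V) :
    ((∃ c : Fin 6 → Fin m, Injective c ∧ ∀ l, E v (x (c l))) ∨ ∀ z, E v z → ∃ i, x i = z) ↔
      min {z | E v z}.ncard 6 ≤ {z | z ∈ Set.range x ∧ E v z}.ncard := by
  rw [min_le_ncard_iff (S := {z | z ∈ Set.range x ∧ E v z}) (C := {z | E v z}) (fun z hz => hz.2)]
  refine or_congr ?_ ?_
  · rw [exists_injective_iff]
    constructor
    · rintro ⟨c, hc, hcE⟩
      exact ⟨fun l => x (c l), hx.comp hc, fun l => ⟨⟨c l, rfl⟩, hcE l⟩⟩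
    · rintro ⟨f, hf, hfS⟩
      choose c hc using fun l => (hfS l).1
      refine ⟨c, fun a b hab => hf ?_, fun l => ?_⟩
      · rw [← hc a, ← hc b, hab]
      · rw [hc l]
        exact (hfS l).2
  · constructor
    · intro h z hz
      exact ⟨h z hz, hz⟩
    · intro h z hz
      exact (h hz).1

/-- The edge condition. -/
theorem edge_iff {m : ℕ} {x : Fin m → V} (hx : Injective x) (v : V) :
    ((∃ c d : Fin 3 → Fin m, (∀ l, G.Adj (x (c l)) (x (d l)) ∧ E v (x (c l)) ∧ E v (x (d l))) ∧
        ∀ l l', l ≠ l' → ¬ (c l = c l' ∧ d l = d l') ∧ ¬ (c l = d l' ∧ d l = c l')) ∨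
      ∀ z z', E v z → E v z' → G.Adj z z' → (∃ i, x i = z) ∧ ∃ i, x i = z') ↔
      min (edgesIn G {z | E v z}).ncard 3 ≤ (edgesIn G {z | z ∈ Set.range x ∧ E v z}).ncard := by
  rw [min_le_ncard_iff (edgesIn_mono G (fun z hz => hz.2))]
  refine or_congr ?_ ?_
  · rw [exists_injective_iff]
    constructor
    · rintro ⟨c, d, h1, h2⟩
      refine ⟨fun l => s(x (c l), x (d l)), ?_, ?_⟩
      · intro l l' hl
        by_contra hne
        obtain ⟨h3, h4⟩ := h2 l l' hne
        rcases Sym2.eq_iff.1 hl with ⟨h5, h6⟩ | ⟨h5, h6⟩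
        · exact h3 ⟨hx h5, hx h6⟩
        · exact h4 ⟨hx h5, hx h6⟩
      · intro l
        refine ⟨(h1 l).1, ?_⟩
        intro w hw
        rcases Sym2.mem_iff.1 hw with rfl | rfl
        · exact ⟨⟨_, rfl⟩, (h1 l).2.1⟩
        · exact ⟨⟨_, rfl⟩, (h1 l).2.2⟩
    · rintro ⟨f, hf, hfS⟩
      have h1 : ∀ l, ∃ c d : Fin m, f l = s(x c, x d) := by
        intro l
        have h2 := hfS l
        revert h2
        induction f l with
        | h a b =>
          intro h2
          obtain ⟨⟨c, hc⟩, -⟩ := h2.2 a (Sym2.mem_mk_left a b)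
          obtain ⟨⟨d, hd⟩, -⟩ := h2.2 b (Sym2.mem_mk_right a b)
          exact ⟨c, d, by rw [hc, hd]⟩
      choose c d hcd using h1
      refine ⟨c, d, ?_, ?_⟩
      · intro l
        have h2 := hfS l
        rw [hcd l] at h2
        exact ⟨h2.1, (h2.2 _ (Sym2.mem_mk_left _ _)).2, (h2.2 _ (Sym2.mem_mk_right _ _)).2⟩
      · intro l l' hne
        refine ⟨?_, ?_⟩
        · rintro ⟨h2, h3⟩
          exact hne (hf (by rw [hcd l, hcd l', h2, h3]))
        · rintro ⟨h2, h3⟩
          exact hne (hf (by rw [hcd l, hcd l', h2, h3]; exact Sym2.eq_swap))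
  · constructor
    · intro h e
      induction e with
      | h a b =>
        rintro ⟨h1, h2⟩
        have h3 := h a b (h2 a (Sym2.mem_mk_left a b)) (h2 b (Sym2.mem_mk_right a b)) h1
        refine ⟨h1, ?_⟩
        intro w hw
        refine ⟨?_, h2 w hw⟩
        rcases Sym2.mem_iff.1 hw with rfl | rfl
        · exact h3.1
        · exact h3.2
    · intro h z z' h1 h2 h3
      have h4 : s(z, z') ∈ edgesIn G {z | E v z} := by
        refine ⟨h3, ?_⟩
        intro w hw
        rcases Sym2.mem_iff.1 hw with rfl | rfl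
        · exact h1
        · exact h2
      have h5 := h h4
      exact ⟨(h5.2 _ (Sym2.mem_mk_left _ _)).1, (h5.2 _ (Sym2.mem_mk_right _ _)).1⟩

omit [Fintype V] in
theorem set_eq (hE : Good G.Adj E) (v : V) :
    ({z | ({y | E z y} : Set V) = {y | E v y}} : Set V) = {z | E v z} := by
  ext z
  exact cls_iff hE

omit [Fintype V] in
theorem set_eq' (hE : Good G.Adj E) (U : Set V) (v : V) :
    ({z | z ∈ U ∧ ({y | E z y} : Set V) = {y | E v y}} : Set V) = {z | z ∈ U ∧ E v z} := by
  ext z
  exact and_congr_right fun _ => cls_iff hE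

omit [Fintype V] in
theorem hmod (hE : Good G.Adj E) : ∀ x y z, (fun x => ({y | E x y} : Set V)) x =
    (fun x => ({y | E x y} : Set V)) y → (fun x => ({y | E x y} : Set V)) z ≠
    (fun x => ({y | E x y} : Set V)) x → G.Adj x z → G.Adj y z := by
  intro x y z h1 h2 h3
  have h1' : E y x := (cls_iff hE).1 h1
  have h2' : ¬ E x z := fun h => h2 ((cls_iff hE).2 h)
  exact hE.2.2.2.1 x y z (hE.2.1 _ _ h1') h2' h3

theorem hN3 (hE : Good G.Adj E) : ∀ x, 3 ≤ {z | (fun x => ({y | E x y} : Set V)) z ≠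
    (fun x => ({y | E x y} : Set V)) x ∧ G.Adj x z}.ncard := by
  intro x
  rw [exists_injective_iff]
  obtain ⟨c, hc, h⟩ := hE.2.2.2.2 x
  exact ⟨c, hc, fun l => ⟨fun h1 => (h l).1 ((cls_iff hE).1 h1), (h l).2⟩⟩

/-- The kernel has at least four vertices. -/
theorem four_le (hV : 4 ≤ Fintype.card V) (hE : Good G.Adj E) {m : ℕ} {x : Fin m → V}
    (h : ∀ v, (∃ c : Fin 6 → Fin m, Injective c ∧ ∀ l, E v (x (c l))) ∨
      ∀ z, E v z → ∃ i, x i = z) : 4 ≤ m := by
  by_cases h1 : ∃ v, ∃ c : Fin 6 → Fin m, Injective c ∧ ∀ l, E v (x (c l))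
  · obtain ⟨v, c, hc, -⟩ := h1
    have := Fintype.card_le_of_injective c hc
    rw [Fintype.card_fin, Fintype.card_fin] at this
    omega
  · have hs : Surjective x := by
      intro v
      rcases h v with h2 | h2
      · exact absurd ⟨v, h2⟩ h1
      · exact h2 v (hE.1 v)
    have := Fintype.card_le_of_surjective x hs
    rw [Fintype.card_fin] at this
    omega

/-- The main equivalence for a given kernel. -/
theorem rigid_iff (hV : 4 ≤ Fintype.card V) (hE : Good G.Adj E) {m : ℕ} {H : SimpleGraph (Fin m)}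
    {x : Fin m → V} (hx : Injective x) (hadj : ∀ i j, H.Adj i j ↔ G.Adj (x i) (x j))
    (h1 : ∀ v, (∃ c : Fin 6 → Fin m, Injective c ∧ ∀ l, E v (x (c l))) ∨
      ∀ z, E v z → ∃ i, x i = z)
    (h2 : ∀ v, (∃ c d : Fin 3 → Fin m,
        (∀ l, G.Adj (x (c l)) (x (d l)) ∧ E v (x (c l)) ∧ E v (x (d l))) ∧
        ∀ l l', l ≠ l' → ¬ (c l = c l' ∧ d l = d l') ∧ ¬ (c l = d l' ∧ d l = c l')) ∨
      ∀ z z', E v z → E v z' → G.Adj z z' → (∃ i, x i = z) ∧ ∃ i, x i = z') :
    GenericallyRigid G ↔ GenericallyRigid H := by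
  classical
  have key := ((modularKernel G (fun x => ({y | E x y} : Set V)) hV (hmod hE)).2 (hN3 hE)).1
    (Set.range x) ?_ ?_
  · rw [key]
    let φ : H ≃g G.induce (Set.range x) :=
      { toEquiv := Equiv.ofInjective x hx
        map_rel_iff' := by
          intro a b
          exact (hadj a b).symm }
    exact (rigid_congr φ (by rw [Fintype.card_fin]; exact four_le hV hE h1)).symm
  · intro v
    have := (vert_iff hx v).1 (h1 v)
    simp only [set_eq hE, set_eq' hE]
    exact this
  · intro v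
    have := (edge_iff hx v).1 (h2 v)
    rw [ncard_edgesIn, ncard_edgesIn] at this
    have e1 := set_eq hE v
    have e2 := set_eq' hE (Set.range x) v
    rw [e1, e2]
    exact this

end KerIff

variable {V : Type} [Fintype V] (G : SimpleGraph V) (hV : 4 ≤ Fintype.card V) {E : V → V → Prop}
  (hE : Good G.Adj E)
include hV hE

theorem kerAcc_sound (K : ℕ) :
    KerAcc G.Adj E (fun _ H => GenericallyRigid H) K → GenericallyRigid G := by
  rintro ⟨m, H, hgr, x, hx, hadj, h1, h2⟩
  exact (KerIff.rigid_iff hV hE hx hadj h1 h2).2 hgr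

theorem kerAcc_complete (K : ℕ) (hK : 6 * (Set.range fun x => {y | E x y}).ncard ≤ K) :
    GenericallyRigid G → KerAcc G.Adj E (fun _ H => GenericallyRigid H) K := by
  classical
  intro hG
  obtain ⟨U, hU, hU1, hU2⟩ := ((modularKernel G (fun x => ({y | E x y} : Set V)) hV
    (KerIff.hmod hE)).2 (KerIff.hN3 hE)).2
  simp only [KerIff.set_eq hE, KerIff.set_eq' hE] at hU hU1
  have hcard : Fintype.card U ≤ K := by
    have h1 : U.toFinset.card ≤ 6 * (U.toFinset.image (fun x => ({y | E x y} : Set V))).card := by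
      refine Finset.card_le_mul_card_image _ _ ?_
      intro a ha
      obtain ⟨v, hv, rfl⟩ := Finset.mem_image.1 ha
      have h2 := hU v
      rw [← KerIff.set_eq' hE, Set.ncard_eq_toFinset_card'] at h2
      refine le_trans (le_of_eq ?_) h2
      congr 1
      ext z
      simp
    have h2 : (U.toFinset.image (fun x => ({y | E x y} : Set V))).card ≤
        (Set.range fun x => ({y | E x y} : Set V)).ncard := by
      rw [← Set.ncard_coe_finset]
      refine Set.ncard_le_ncard ?_ (Set.toFinite _)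
      intro a ha
      rw [Finset.mem_coe] at ha
      obtain ⟨v, -, rfl⟩ := Finset.mem_image.1 ha
      exact ⟨v, rfl⟩
    rw [← Set.toFinset_card]
    calc U.toFinset.card ≤ 6 * (U.toFinset.image (fun x => ({y | E x y} : Set V))).card := h1
      _ ≤ 6 * (Set.range fun x => ({y | E x y} : Set V)).ncard := Nat.mul_le_mul_left 6 h2
      _ ≤ K := hK
  let e := (Fintype.equivFin U).symm
  let x : Fin (Fintype.card U) → V := fun i => (e i : V)
  have hx : Injective x := fun a b h => e.injective (Subtype.ext h)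
  have hr : Set.range x = U := by
    ext v
    constructor
    · rintro ⟨i, rfl⟩
      exact (e i).2
    · intro hv
      exact ⟨e.symm ⟨v, hv⟩, by simp [x]⟩
  have h1 : ∀ v, (∃ c : Fin 6 → Fin (Fintype.card U), Injective c ∧ ∀ l, E v (x (c l))) ∨
      ∀ z, E v z → ∃ i, x i = z := by
    intro v
    rw [KerIff.vert_iff hx v, hr]
    exact hU1 v
  have h2 : ∀ v, (∃ c d : Fin 3 → Fin (Fintype.card U),
        (∀ l, G.Adj (x (c l)) (x (d l)) ∧ E v (x (c l)) ∧ E v (x (d l))) ∧
        ∀ l l', l ≠ l' → ¬ (c l = c l' ∧ d l = d l') ∧ ¬ (c l = d l' ∧ d l = c l')) ∨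
      ∀ z z', E v z → E v z' → G.Adj z z' → (∃ i, x i = z) ∧ ∃ i, x i = z' := by
    intro v
    rw [KerIff.edge_iff hx v, hr, ncard_edgesIn, ncard_edgesIn]
    have h3 := hU2 v
    have e1 := KerIff.set_eq hE v
    have e2 := KerIff.set_eq' hE U v
    beta_reduce at h3
    rw [e1, e2] at h3
    exact h3
  refine ⟨⟨Fintype.card U, Nat.lt_succ_of_le hcard⟩, G.comap x, ?_, x, hx, fun i j => Iff.rfl,
    h1, h2⟩
  exact (KerIff.rigid_iff hV hE (H := G.comap x) hx (fun i j => Iff.rfl) h1 h2).1 hG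

end Pool.Agent.Lib.MP_37c7bf_co_Mod

end KerIffPart
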