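import Pool.Agent.Lib.MP_37c7bf_co_Mod.Spec
import Pool.Agent.Lib.MP_37c7bf_co_Poly.TDef

section MachinePart

/-!
# The Turing machine for graphs with a small modular partition
-/

set_option autoImplicit false

namespace Pool.Agent.Lib.MP_37c7bf_co_Mod

open Pool.Agent.Lib.PolyTM Pool.Agent.Lib.FOLFP Pool.Agent.Lib.MP_37c7bf_co_Poly Function Turing

/-! ### Least fixed points of monotone operators -/

section

variable {W1 : Type} [DecidableEq W1] {ι : W1 → Type} [∀ w, Fintype (ι w)]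
  [∀ w, DecidableEq (ι w)]

/-- The least fixed point of a monotone operator on relations. -/
def Lfp {X : Type*} (Φ : (X → Prop) → X → Prop) (E : X) : Prop :=
  ∀ P : X → Prop, (∀ E, Φ P E → P E) → P E

/-- A table can be filled with the least fixed point of a definable monotone operator. -/
theorem tlfp_mono (w : W1)
    {Φ : ∀ N, (Fin N → Fin N → Prop) → ((ι w → Fin N) → Prop) → (ι w → Fin N) → Prop}
    (hmono : ∀ N A (P P' : (ι w → Fin N) → Prop), (∀ E, P E → P' E) →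
      ∀ E, Φ N A P E → Φ N A P' E)
    (h : TDef ι (fun _ _ => True) (ι w)
      (fun N a E => Φ N (TDef.Adj N a) (TDef.Tab ι N a w) E)) :
    PDef (Sum.elim (bar ι (0 + 1)) (bar ι (0 + 1))) (fun N σ τ =>
      (∀ l, mn σ (some w) l = false) →
        τ.o = σ.o ∧ (∀ w' ≠ some w, mn τ w' = mn σ w') ∧
        ∀ E : ι w → Fin N, TDef.Tab ι N (mn τ) w E ↔
          Lfp (Φ N (TDef.Adj N (mn σ))) E) := by
  refine (tlfp_step (C := fun _ _ => True) w h fun _ _ _ _ _ => trivial).mono ?_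
  intro N σ τ hs hσ
  obtain ⟨s1, s2, s3, s4⟩ := hs trivial hσ
  have hadj : ∀ M : Arr (Option W1), (∀ w' ≠ some w, M w' = mn τ w') →
      TDef.Adj N M = TDef.Adj N (mn σ) := by
    intro M hM
    funext x y
    unfold TDef.Adj BAdj
    rw [hM none (by simp), s2 none (by simp)]
  refine ⟨s1, s2, fun E => ⟨?_, ?_⟩⟩
  · refine s4 (Lfp (Φ N (TDef.Adj N (mn σ)))) ?_ E
    intro M hM hMP E hE
    rw [hadj M hM] at hE
    intro P hP
    exact hP E (hmono N _ _ _ (fun E' hE' => hMP E' hE' P hP) E hE)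
  · intro hE
    refine hE _ fun E' hE' => s3 E' ?_
    rw [hadj (mn τ) fun _ _ => rfl]
    exact hE'

end

/-! ### The tables -/

/-- Three tables. -/
inductive Tb
  | cl
  | li
  | co
  deriving DecidableEq

instance : Fintype Tb := ⟨{Tb.cl, Tb.li, Tb.co}, fun x => by cases x <;> simp⟩

/-- The places of the tables. -/
def tx : Tb → Type
  | .cl => Fin 3
  | .li => Fin 6
  | .co => Fin 2

instance instFintypeTx : ∀ w, Fintype (tx w)
  | .cl => inferInstanceAs (Fintype (Fin 3))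
  | .li => inferInstanceAs (Fintype (Fin 6))
  | .co => inferInstanceAs (Fintype (Fin 2))

instance instDecidableEqTx : ∀ w, DecidableEq (tx w)
  | .cl => inferInstanceAs (DecidableEq (Fin 3))
  | .li => inferInstanceAs (DecidableEq (Fin 6))
  | .co => inferInstanceAs (DecidableEq (Fin 2))

/-- Contents of the first table. -/
def tC (N : ℕ) (a : Arr (Option Tb)) (x y z : Fin N) : Prop :=
  TDef.Tab tx N a Tb.cl (![x, y, z] : Fin 3 → Fin N)

/-- Contents of the second table. -/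
def tP (N : ℕ) (a : Arr (Option Tb)) (x₁ x₂ x₃ x₄ x y : Fin N) : Prop :=
  TDef.Tab tx N a Tb.li (![x₁, x₂, x₃, x₄, x, y] : Fin 6 → Fin N)

/-- Contents of the third table. -/
def tQ (N : ℕ) (a : Arr (Option Tb)) (x y : Fin N) : Prop :=
  TDef.Tab tx N a Tb.co (![x, y] : Fin 2 → Fin N)

variable {C : ℕ → Arr (Option Tb) → Prop} {κ : Type} [DecidableEq κ]

theorem td_tC (x y z : κ) : TDef tx C κ (fun N a e => tC N a (e x) (e y) (e z)) := by
  refine (TDef.tab (ι := tx) Tb.cl (![x, y, z] : Fin 3 → κ)).congr ?_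
  intro N a e _
  unfold tC
  refine iff_of_eq (congrArg (TDef.Tab tx N a Tb.cl) ?_)
  funext i
  change Fin 3 at i
  fin_cases i <;> rfl

theorem td_tP (x₁ x₂ x₃ x₄ x y : κ) :
    TDef tx C κ (fun N a e => tP N a (e x₁) (e x₂) (e x₃) (e x₄) (e x) (e y)) := by
  refine (TDef.tab (ι := tx) Tb.li (![x₁, x₂, x₃, x₄, x, y] : Fin 6 → κ)).congr ?_
  intro N a e _
  unfold tP
  refine iff_of_eq (congrArg (TDef.Tab tx N a Tb.li) ?_)
  funext i
  change Fin 6 at i
  fin_cases i <;> rfl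

theorem td_tQ (x y : κ) : TDef tx C κ (fun N a e => tQ N a (e x) (e y)) := by
  refine (TDef.tab (ι := tx) Tb.co (![x, y] : Fin 2 → κ)).congr ?_
  intro N a e _
  unfold tQ
  refine iff_of_eq (congrArg (TDef.Tab tx N a Tb.co) ?_)
  funext i
  change Fin 2 at i
  fin_cases i <;> rfl

theorem td_inj {m : ℕ} (f : Fin m → κ) :
    TDef tx C κ (fun _ _ e => Injective fun i => e (f i)) :=
  TDef.forall' fun i => TDef.forall' fun j => (TDef.eq (f i) (f j)).imp (TDef.const (i = j))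

/-! ### Definability with a definable equivalence relation -/

section

variable [Fintype κ] {E : ∀ N, Arr (Option Tb) → (κ → Fin N) → Fin N → Fin N → Prop}

theorem td_at {κ' : Type} [DecidableEq κ']
    (hE : TDef tx C (κ ⊕ Fin 2) fun N a e =>
      E N a (fun k => e (.inl k)) (e (.inr 0)) (e (.inr 1)))
    (g : κ → κ') (x y : κ') :
    TDef tx C κ' (fun N a e => E N a (fun k => e (g k)) (e x) (e y)) := by
  exact hE.subst (Sum.elim g ![x, y])

theorem td_good (hE : TDef tx C (κ ⊕ Fin 2) fun N a e =>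
      E N a (fun k => e (.inl k)) (e (.inr 0)) (e (.inr 1))) :
    TDef tx C κ (fun N a e => Good (TDef.Adj N a) (E N a e)) := by
  have h1 : TDef tx C (κ ⊕ Unit) (fun N a e =>
      E N a (fun k => e (.inl k)) (e (.inr ())) (e (.inr ()))) := td_at hE _ _ _
  have h2 : TDef tx C ((κ ⊕ Unit) ⊕ Unit) (fun N a e =>
      E N a (fun k => e (.inl (.inl k))) (e (.inl (.inr ()))) (e (.inr ())) →
      E N a (fun k => e (.inl (.inl k))) (e (.inr ())) (e (.inl (.inr ())))) :=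
    (td_at hE _ _ _).imp (td_at hE _ _ _)
  have h3 : TDef tx C (((κ ⊕ Unit) ⊕ Unit) ⊕ Unit) (fun N a e =>
      E N a (fun k => e (.inl (.inl (.inl k)))) (e (.inl (.inl (.inr ())))) (e (.inl (.inr ()))) →
      E N a (fun k => e (.inl (.inl (.inl k)))) (e (.inl (.inr ()))) (e (.inr ())) →
      E N a (fun k => e (.inl (.inl (.inl k)))) (e (.inl (.inl (.inr ())))) (e (.inr ()))) :=
    (td_at hE _ _ _).imp ((td_at hE _ _ _).imp (td_at hE _ _ _))
  have h4 : TDef tx C (((κ ⊕ Unit) ⊕ Unit) ⊕ Unit) (fun N a e =>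
      E N a (fun k => e (.inl (.inl (.inl k)))) (e (.inl (.inl (.inr ())))) (e (.inl (.inr ()))) →
      ¬ E N a (fun k => e (.inl (.inl (.inl k)))) (e (.inl (.inl (.inr ())))) (e (.inr ())) →
      TDef.Adj N a (e (.inl (.inl (.inr ())))) (e (.inr ())) →
      TDef.Adj N a (e (.inl (.inr ()))) (e (.inr ()))) :=
    (td_at hE _ _ _).imp ((td_at hE _ _ _).not.imp ((TDef.adj _ _).imp (TDef.adj _ _)))
  have h5 : TDef tx C ((κ ⊕ Unit) ⊕ Fin 3) (fun N a e =>
      (Injective fun l : Fin 3 => e (.inr l)) ∧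
      ∀ l : Fin 3, ¬ E N a (fun k => e (.inl (.inl k))) (e (.inl (.inr ()))) (e (.inr l)) ∧
        TDef.Adj N a (e (.inl (.inr ()))) (e (.inr l))) :=
    (td_inj _).and (TDef.forall' fun l => (td_at hE _ _ _).not.and (TDef.adj _ _))
  exact h1.all1.and (h2.all1.all1.and (h3.all1.all1.all1.and (h4.all1.all1.all1.and h5.ex.all1)))

theorem td_kerAcc (hE : TDef tx C (κ ⊕ Fin 2) fun N a e =>
      E N a (fun k => e (.inl k)) (e (.inr 0)) (e (.inr 1)))
    (gr : ∀ m, SimpleGraph (Fin m) → Prop) (K : ℕ) :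
    TDef tx C κ (fun N a e => KerAcc (TDef.Adj N a) (E N a e) gr K) := by
  refine TDef.exists' fun m => TDef.exists' fun H => (TDef.const _).and ?_
  have h1 : TDef tx C (κ ⊕ Fin m) (fun N a e => ∀ i j : Fin m,
      H.Adj i j ↔ TDef.Adj N a (e (.inr i)) (e (.inr j))) :=
    TDef.forall' fun i => TDef.forall' fun j => (TDef.const _).iff (TDef.adj _ _)
  have h2 : TDef tx C (κ ⊕ Fin m) (fun N a e => ∀ v : Fin N,
      (∃ c : Fin 6 → Fin m, Injective c ∧ ∀ l, E N a (fun k => e (.inl k)) v (e (.inr (c l)))) ∨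
        ∀ z : Fin N, E N a (fun k => e (.inl k)) v z → ∃ i : Fin m, e (.inr i) = z) := by
    have ha : TDef tx C ((κ ⊕ Fin m) ⊕ Unit) (fun N a e => ∃ c : Fin 6 → Fin m, Injective c ∧
        ∀ l, E N a (fun k => e (.inl (.inl k))) (e (.inr ())) (e (.inl (.inr (c l))))) :=
      TDef.exists' fun c => (TDef.const _).and (TDef.forall' fun l => td_at hE _ _ _)
    have hb : TDef tx C (((κ ⊕ Fin m) ⊕ Unit) ⊕ Unit) (fun N a e =>
        E N a (fun k => e (.inl (.inl (.inl k)))) (e (.inl (.inr ()))) (e (.inr ())) →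
          ∃ i : Fin m, e (.inl (.inl (.inr i))) = e (.inr ())) :=
      (td_at hE _ _ _).imp (TDef.exists' fun i => TDef.eq _ _)
    exact (ha.or hb.all1).all1
  have h3 : TDef tx C (κ ⊕ Fin m) (fun N a e => ∀ v : Fin N,
      (∃ c d : Fin 3 → Fin m, (∀ l, TDef.Adj N a (e (.inr (c l))) (e (.inr (d l))) ∧
          E N a (fun k => e (.inl k)) v (e (.inr (c l))) ∧
          E N a (fun k => e (.inl k)) v (e (.inr (d l)))) ∧
        ∀ l l', l ≠ l' → ¬ (c l = c l' ∧ d l = d l') ∧ ¬ (c l = d l' ∧ d l = c l')) ∨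
      ∀ z z' : Fin N, E N a (fun k => e (.inl k)) v z → E N a (fun k => e (.inl k)) v z' →
        TDef.Adj N a z z' → (∃ i : Fin m, e (.inr i) = z) ∧ ∃ i : Fin m, e (.inr i) = z') := by
    have ha : TDef tx C ((κ ⊕ Fin m) ⊕ Unit) (fun N a e => ∃ c d : Fin 3 → Fin m,
        (∀ l, TDef.Adj N a (e (.inl (.inr (c l)))) (e (.inl (.inr (d l)))) ∧
          E N a (fun k => e (.inl (.inl k))) (e (.inr ())) (e (.inl (.inr (c l)))) ∧
          E N a (fun k => e (.inl (.inl k))) (e (.inr ())) (e (.inl (.inr (d l))))) ∧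
        ∀ l l', l ≠ l' → ¬ (c l = c l' ∧ d l = d l') ∧ ¬ (c l = d l' ∧ d l = c l')) :=
      TDef.exists' fun c => TDef.exists' fun d => (TDef.forall' fun l => (TDef.adj _ _).and
        ((td_at hE _ _ _).and (td_at hE _ _ _))).and (TDef.const _)
    have hb : TDef tx C ((((κ ⊕ Fin m) ⊕ Unit) ⊕ Unit) ⊕ Unit) (fun N a e =>
        E N a (fun k => e (.inl (.inl (.inl (.inl k))))) (e (.inl (.inl (.inr ()))))
          (e (.inl (.inr ()))) →
        E N a (fun k => e (.inl (.inl (.inl (.inl k))))) (e (.inl (.inl (.inr ()))))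
          (e (.inr ())) →
        TDef.Adj N a (e (.inl (.inr ()))) (e (.inr ())) →
        (∃ i : Fin m, e (.inl (.inl (.inl (.inr i)))) = e (.inl (.inr ()))) ∧
          ∃ i : Fin m, e (.inl (.inl (.inl (.inr i)))) = e (.inr ())) :=
      (td_at hE _ _ _).imp ((td_at hE _ _ _).imp ((TDef.adj _ _).imp
        ((TDef.exists' fun i => TDef.eq _ _).and (TDef.exists' fun i => TDef.eq _ _))))
    exact (ha.or hb.all1.all1).all1
  exact TDef.ex ((td_inj fun i : Fin m => (Sum.inr i : κ ⊕ Fin m)).and (h1.and (h2.and h3)))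

end

/-! ### Definability of the acceptance condition -/

theorem td_link (a b u v x y : κ) :
    TDef tx C κ (fun N A e => Link (TDef.Adj N A) (e a) (e b) (e u) (e v) (e x) (e y)) :=
  (TDef.adj _ _).and ((TDef.eq _ _).not.and ((TDef.eq _ _).not.and ((TDef.eq _ _).not.and
    ((TDef.eq _ _).not.and (((TDef.eq _ _).and (TDef.eq _ _)).not.and
      ((TDef.eq _ _).and (TDef.eq _ _)).not)))))

theorem td_excAcc : TDef tx C κ (fun N A _ => ExcAcc (TDef.Adj N A) (tP N A)) := by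
  have h1 : TDef tx C (((κ ⊕ Unit) ⊕ Unit) ⊕ Unit) (fun N A e =>
      e (.inr ()) ≠ e (.inl (.inl (.inr ()))) → e (.inr ()) ≠ e (.inl (.inr ())) →
      TDef.Adj N A (e (.inr ())) (e (.inl (.inl (.inr ())))) ∧
        TDef.Adj N A (e (.inr ())) (e (.inl (.inr ())))) :=
    (TDef.eq _ _).not.imp ((TDef.eq _ _).not.imp ((TDef.adj _ _).and (TDef.adj _ _)))
  have h2 : TDef tx C ((((κ ⊕ Unit) ⊕ Unit) ⊕ Unit) ⊕ Unit) (fun N A e =>
      e (.inl (.inr ())) ≠ e (.inl (.inl (.inl (.inr ())))) →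
      e (.inl (.inr ())) ≠ e (.inl (.inl (.inr ()))) →
      e (.inr ()) ≠ e (.inl (.inl (.inl (.inr ())))) →
      e (.inr ()) ≠ e (.inl (.inl (.inr ()))) →
      tP N A (e (.inl (.inl (.inl (.inr ()))))) (e (.inl (.inl (.inr ()))))
        (e (.inl (.inl (.inl (.inr ()))))) (e (.inl (.inl (.inr ()))))
        (e (.inl (.inr ()))) (e (.inr ()))) :=
    (TDef.eq _ _).not.imp ((TDef.eq _ _).not.imp ((TDef.eq _ _).not.imp
      ((TDef.eq _ _).not.imp (td_tP _ _ _ _ _ _))))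
  have h3 : TDef tx C ((((κ ⊕ Unit) ⊕ Unit) ⊕ Unit) ⊕ Unit) (fun N A e =>
      e (.inl (.inr ())) ≠ e (.inl (.inl (.inl (.inr ())))) ∧
      e (.inl (.inr ())) ≠ e (.inl (.inl (.inr ()))) ∧
      e (.inr ()) ≠ e (.inl (.inl (.inl (.inr ())))) ∧
      e (.inr ()) ≠ e (.inl (.inl (.inr ()))) ∧
      TDef.Adj N A (e (.inl (.inr ()))) (e (.inr ())) ∧
      tP N A (e (.inl (.inl (.inl (.inr ()))))) (e (.inl (.inl (.inr ()))))
        (e (.inl (.inr ()))) (e (.inr ())) (e (.inl (.inr ()))) (e (.inr ()))) :=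
    (TDef.eq _ _).not.and ((TDef.eq _ _).not.and ((TDef.eq _ _).not.and
      ((TDef.eq _ _).not.and ((TDef.adj _ _).and (td_tP _ _ _ _ _ _)))))
  have h : TDef tx C ((κ ⊕ Unit) ⊕ Unit) (fun N A e =>
      e (.inl (.inr ())) ≠ e (.inr ()) ∧
      (∀ v : Fin N, v ≠ e (.inl (.inr ())) → v ≠ e (.inr ()) →
        TDef.Adj N A v (e (.inl (.inr ()))) ∧ TDef.Adj N A v (e (.inr ()))) ∧
      (∀ x y : Fin N, x ≠ e (.inl (.inr ())) → x ≠ e (.inr ()) → y ≠ e (.inl (.inr ())) →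
        y ≠ e (.inr ()) → tP N A (e (.inl (.inr ()))) (e (.inr ())) (e (.inl (.inr ())))
          (e (.inr ())) x y) ∧
      (TDef.Adj N A (e (.inl (.inr ()))) (e (.inr ())) ∨
        ∃ u v : Fin N, u ≠ e (.inl (.inr ())) ∧ u ≠ e (.inr ()) ∧ v ≠ e (.inl (.inr ())) ∧
          v ≠ e (.inr ()) ∧ TDef.Adj N A u v ∧
          tP N A (e (.inl (.inr ()))) (e (.inr ())) u v u v)) :=
    (TDef.eq _ _).not.and (h1.all1.and (h2.all1.all1.and ((TDef.adj _ _).or h3.ex1.ex1)))
  exact h.ex1.ex1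

theorem td_modAcc (gr : ∀ m, SimpleGraph (Fin m) → Prop) (K : ℕ) :
    TDef tx C Empty (fun N A _ => ModAcc (TDef.Adj N A) (fun x y => ∃ z, ¬ tC N A x y z)
      (tP N A) (tQ N A) gr K) := by
  have hR : TDef tx C (Empty ⊕ Fin 2) (fun N a e =>
      (fun N a (_ : Empty → Fin N) x y => ∃ z, ¬ tC N a x y z) N a (fun k => e (.inl k))
        (e (.inr 0)) (e (.inr 1))) := by
    have h : TDef tx C ((Empty ⊕ Fin 2) ⊕ Unit) (fun N a e =>
        ¬ tC N a (e (.inl (.inr 0))) (e (.inl (.inr 1))) (e (.inr ()))) := (td_tC _ _ _).not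
    exact h.ex1
  let S : ∀ N, Arr (Option Tb) → ((Empty ⊕ Unit) → Fin N) → Fin N → Fin N → Prop :=
    fun N a e x y => Side (tQ N a) (e (.inr ())) x y
  have hS : TDef tx C ((Empty ⊕ Unit) ⊕ Fin 2) (fun N a e =>
      S N a (fun k => e (.inl k)) (e (.inr 0)) (e (.inr 1))) :=
    (td_tQ _ _).iff (td_tQ _ _)
  have h3 : TDef tx C (Empty ⊕ Unit) (fun N a e =>
      Good (TDef.Adj N a) (S N a e) ∧ KerAcc (TDef.Adj N a) (S N a e) gr K) :=
    (td_good (E := S) hS).and (td_kerAcc (E := S) hS gr K)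
  exact td_excAcc.or (((td_good hR).and (td_kerAcc hR gr K)).or h3.ex1)

/-! ### The fixed points -/

/-- The places of the first table. -/
def un3 {V : Type*} (E : tx Tb.cl → V) : Fin 3 → V := E

/-- The places of the second table. -/
def un6 {V : Type*} (E : tx Tb.li → V) : Fin 6 → V := E

/-- The places of the third table. -/
def un2 {V : Type*} (E : tx Tb.co → V) : Fin 2 → V := E

/-- The rule for the smallest module containing two vertices. -/
def stC {V : Type*} (A : V → V → Prop) (P : (tx Tb.cl → V) → Prop) (E : tx Tb.cl → V) : Prop :=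
  un3 E 2 = un3 E 0 ∨ un3 E 2 = un3 E 1 ∨ ∃ u v, P (![un3 E 0, un3 E 1, u] : Fin 3 → V) ∧
    P (![un3 E 0, un3 E 1, v] : Fin 3 → V) ∧ A u (un3 E 2) ∧ ¬ A v (un3 E 2)

/-- The rule for reachability without `a`, `b` and `uv`. -/
def stP {V : Type*} (A : V → V → Prop) (P : (tx Tb.li → V) → Prop) (E : tx Tb.li → V) : Prop :=
  un6 E 5 = un6 E 4 ∨ ∃ z,
    P (![un6 E 0, un6 E 1, un6 E 2, un6 E 3, un6 E 4, z] : Fin 6 → V) ∧
    Link A (un6 E 0) (un6 E 1) (un6 E 2) (un6 E 3) z (un6 E 5)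

/-- The rule for reachability in the complement. -/
def stQ {V : Type*} (A : V → V → Prop) (P : (tx Tb.co → V) → Prop) (E : tx Tb.co → V) : Prop :=
  un2 E 1 = un2 E 0 ∨ ∃ z, P (![un2 E 0, z] : Fin 2 → V) ∧ CoAdj A z (un2 E 1)

theorem lfp_C {V : Type*} (G : SimpleGraph V) (x y z : V) :
    Lfp (stC G.Adj) (![x, y, z] : Fin 3 → V) ↔ Cl G x y z := by
  constructor
  · intro h
    have := h (fun E => Cl G (un3 E 0) (un3 E 1) (un3 E 2)) ?_
    · exact this
    · rintro E (h | h | ⟨u, v, hu, hv, h1, h2⟩)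
      · rw [h]
        exact Cl.left
      · rw [h]
        exact Cl.right
      · exact Cl.step hu hv h1 h2
  · intro h P hP
    induction h with
    | left => exact hP _ (Or.inl rfl)
    | right => exact hP _ (Or.inr (Or.inl rfl))
    | @step u v z _ _ h1 h2 hu hv =>
      exact hP _ (Or.inr (Or.inr ⟨u, v, hu, hv, h1, h2⟩))

theorem lfp_P {V : Type*} (A : V → V → Prop) (x₁ x₂ x₃ x₄ x y : V) :
    Lfp (stP A) (![x₁, x₂, x₃, x₄, x, y] : Fin 6 → V) ↔
      Relation.ReflTransGen (Link A x₁ x₂ x₃ x₄) x y := by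
  constructor
  · intro h
    have := h (fun E => Relation.ReflTransGen (Link A (un6 E 0) (un6 E 1) (un6 E 2) (un6 E 3))
      (un6 E 4) (un6 E 5)) ?_
    · exact this
    · rintro E (h | ⟨z, h1, h2⟩)
      · rw [h]
      · exact Relation.ReflTransGen.tail h1 h2
  · intro h P hP
    induction h with
    | refl => exact hP _ (Or.inl rfl)
    | @tail b c _ h1 h2 => exact hP _ (Or.inr ⟨b, h2, h1⟩)

theorem lfp_Q {V : Type*} (A : V → V → Prop) (x y : V) :
    Lfp (stQ A) (![x, y] : Fin 2 → V) ↔ Relation.ReflTransGen (CoAdj A) x y := by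
  constructor
  · intro h
    have := h (fun E => Relation.ReflTransGen (CoAdj A) (un2 E 0) (un2 E 1)) ?_
    · exact this
    · rintro E (h | ⟨z, h1, h2⟩)
      · rw [h]
      · exact Relation.ReflTransGen.tail h1 h2
  · intro h P hP
    induction h with
    | refl => exact hP _ (Or.inl rfl)
    | @tail b c _ h1 h2 => exact hP _ (Or.inr ⟨b, h2, h1⟩)

/-- A place of the first table. -/
def q3 (i : Fin 3) : tx Tb.cl := i

/-- A place of the second table. -/
def q6 (i : Fin 6) : tx Tb.li := i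

/-- A place of the third table. -/
def q2 (i : Fin 2) : tx Tb.co := i

theorem td_stC : TDef tx C (tx Tb.cl)
    (fun N a E => stC (TDef.Adj N a) (TDef.Tab tx N a Tb.cl) E) := by
  have h : TDef tx C ((tx Tb.cl ⊕ Unit) ⊕ Unit) (fun N a e =>
      tC N a (e (.inl (.inl (q3 0)))) (e (.inl (.inl (q3 1)))) (e (.inl (.inr ()))) ∧
      tC N a (e (.inl (.inl (q3 0)))) (e (.inl (.inl (q3 1)))) (e (.inr ())) ∧
      TDef.Adj N a (e (.inl (.inr ()))) (e (.inl (.inl (q3 2)))) ∧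
      ¬ TDef.Adj N a (e (.inr ())) (e (.inl (.inl (q3 2))))) :=
    (td_tC _ _ _).and ((td_tC _ _ _).and ((TDef.adj _ _).and (TDef.adj _ _).not))
  exact (TDef.eq (κ := tx Tb.cl) (q3 2) (q3 0)).or
    ((TDef.eq (κ := tx Tb.cl) (q3 2) (q3 1)).or h.ex1.ex1)

theorem td_stP : TDef tx C (tx Tb.li)
    (fun N a E => stP (TDef.Adj N a) (TDef.Tab tx N a Tb.li) E) := by
  have h : TDef tx C (tx Tb.li ⊕ Unit) (fun N a e =>
      tP N a (e (.inl (q6 0))) (e (.inl (q6 1))) (e (.inl (q6 2)))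
        (e (.inl (q6 3))) (e (.inl (q6 4))) (e (.inr ())) ∧
      Link (TDef.Adj N a) (e (.inl (q6 0))) (e (.inl (q6 1))) (e (.inl (q6 2)))
        (e (.inl (q6 3))) (e (.inr ())) (e (.inl (q6 5)))) :=
    (td_tP _ _ _ _ _ _).and (td_link _ _ _ _ _ _)
  exact (TDef.eq (κ := tx Tb.li) (q6 5) (q6 4)).or h.ex1

theorem td_stQ : TDef tx C (tx Tb.co)
    (fun N a E => stQ (TDef.Adj N a) (TDef.Tab tx N a Tb.co) E) := by
  have h : TDef tx C (tx Tb.co ⊕ Unit) (fun N a e =>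
      tQ N a (e (.inl (q2 0))) (e (.inr ())) ∧
      CoAdj (TDef.Adj N a) (e (.inr ())) (e (.inl (q2 1)))) :=
    (td_tQ _ _).and ((TDef.eq _ _).not.and (TDef.adj _ _).not)
  exact (TDef.eq (κ := tx Tb.co) (q2 1) (q2 0)).or h.ex1

/-! ### The machine -/

theorem adj_typed' {I : Graph} {a : Arr (Option Tb)} (h : BAdj I.n a = adjN I) :
    TDef.Adj I.n a = I.G.Adj := by
  funext x y
  apply propext
  unfold TDef.Adj
  rw [h]
  constructor
  · rintro ⟨_, _, h⟩; exact h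
  · intro h; exact ⟨x.2, y.2, h⟩

/-- A deterministic polynomial-time Turing machine decides `Accepts` for graphs with more than
`n0` vertices, and a given property `gs` for graphs with at most `n0` vertices. -/
theorem machine (K n0 : ℕ) (gs gr : ∀ m, SimpleGraph (Fin m) → Prop) :
    ∃ (f : Graph → List Bool) (M : TM2ComputableInPolyTime Graph.encode id f),
      (∀ k, Finite (M.tm.Γ k)) ∧ ∀ I : Graph, ∃ b : Bool, f I = [b] ∧
        (b = true ↔ (I.n ≤ n0 ∧ gs I.n I.G) ∨ (n0 < I.n ∧ Accepts I.G gr K)) := by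
  have s1 := tlfp_mono (ι := tx) Tb.cl (Φ := fun N => stC (V := Fin N)) (by
    intro N A P P' hPP E
    rintro (h | h | ⟨u, v, hu, hv, h1, h2⟩)
    · exact Or.inl h
    · exact Or.inr (Or.inl h)
    · exact Or.inr (Or.inr ⟨u, v, hPP _ hu, hPP _ hv, h1, h2⟩)) td_stC
  have s2 := tlfp_mono (ι := tx) Tb.li (Φ := fun N => stP (V := Fin N)) (by
    intro N A P P' hPP E
    rintro (h | ⟨z, h1, h2⟩)
    · exact Or.inl h
    · exact Or.inr ⟨z, hPP _ h1, h2⟩) td_stP
  have s3 := tlfp_mono (ι := tx) Tb.co (Φ := fun N => stQ (V := Fin N)) (by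
    intro N A P P' hPP E
    rintro (h | ⟨z, h1, h2⟩)
    · exact Or.inl h
    · exact Or.inr ⟨z, hPP _ h1, h2⟩) td_stQ
  have hfin : TDef tx (fun _ _ => True) Empty (fun N a _ =>
      SmallCase (n0 + 1) gs N (BAdj N a) ∨
        (n0 < N ∧ ModAcc (TDef.Adj N a) (fun x y => ∃ z, ¬ tC N a x y z)
      (tP N a) (tQ N a) gr K)) :=
    (TDef.of_bdef (bd_small (n0 + 1) gs) fun _ _ _ _ => Iff.rfl).or
      ((TDef.of_bdef (bd_lt_card n0) fun _ _ _ _ => Iff.rfl).and (td_modAcc gr K))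
  have s4 := temit_step (ι := tx) hfin
  obtain ⟨f, M, hM, hf⟩ := machine_of_PDef (s1.seq (s2.seq (s3.seq s4)))
  refine ⟨f, M, hM, fun I => ?_⟩
  obtain ⟨τ, ⟨ρ₁, q1, ρ₂, q2, ρ₃, q3, q4⟩, hfI⟩ := hf I
  have e0 : ∀ (w : Tb) (l : List ℕ), mn (init Tb I) (some w) l = false := fun w l => init_some I w l
  obtain ⟨o1, u1, c1⟩ := q1 (e0 _)
  obtain ⟨o2, u2, c2⟩ := q2 (fun l => by rw [u1 _ (by simp)]; exact e0 _ l)
  obtain ⟨o3, u3, c3⟩ := q3 (fun l => by rw [u2 _ (by simp), u1 _ (by simp)]; exact e0 _ l)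
  obtain ⟨b, hb1, hb2⟩ := q4 trivial
  have a1 : TDef.Adj I.n (mn (init Tb I)) = I.G.Adj := adj_typed' (by
    funext x y
    exact propext (init_adj (W1 := Tb) I x y))
  have hB : ∀ ρ : Arr (Option Tb), ρ none = mn (init Tb I) none → BAdj I.n ρ = adjN I := by
    intro ρ hρ
    funext x y
    apply propext
    rw [← init_adj (W1 := Tb) I x y]
    unfold BAdj
    rw [hρ]
  have b1 : BAdj I.n (mn ρ₁) = adjN I := hB _ (u1 none (by simp))
  have b2 : BAdj I.n (mn ρ₂) = adjN I := hB _ (by rw [u2 none (by simp), u1 none (by simp)])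
  have b3 : BAdj I.n (mn ρ₃) = adjN I :=
    hB _ (by rw [u3 none (by simp), u2 none (by simp), u1 none (by simp)])
  have hC : ∀ x y z, tC I.n (mn ρ₃) x y z ↔ Cl I.G x y z := by
    intro x y z
    have h1 : tC I.n (mn ρ₃) x y z ↔ tC I.n (mn ρ₁) x y z := by
      unfold tC TDef.Tab BA
      rw [u3 (some Tb.cl) (by simp), u2 (some Tb.cl) (by simp)]
    rw [h1, ← lfp_C, ← a1]
    exact c1 _
  have hP : ∀ x₁ x₂ x₃ x₄ x y, tP I.n (mn ρ₃) x₁ x₂ x₃ x₄ x y ↔
      Relation.ReflTransGen (Link I.G.Adj x₁ x₂ x₃ x₄) x y := by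
    intro x₁ x₂ x₃ x₄ x y
    have h1 : tP I.n (mn ρ₃) x₁ x₂ x₃ x₄ x y ↔ tP I.n (mn ρ₂) x₁ x₂ x₃ x₄ x y := by
      unfold tP TDef.Tab BA
      rw [u3 (some Tb.li) (by simp)]
    rw [h1, ← lfp_P, ← adj_typed' b1]
    exact c2 _
  have hQ : ∀ x y, tQ I.n (mn ρ₃) x y ↔ Relation.ReflTransGen (CoAdj I.G.Adj) x y := by
    intro x y
    rw [← lfp_Q, ← adj_typed' b2]
    exact c3 _
  refine ⟨b, ?_, ?_⟩
  · rw [hfI, hb1, o3, o2, o1]
    rfl
  · have eR : (fun x y => ∃ z, ¬ tC I.n (mn ρ₃) x y z) = Rel I.G := by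
      funext x y
      simp only [hC]
      rfl
    have eP : tP I.n (mn ρ₃) =
        fun a b u v => Relation.ReflTransGen (Link I.G.Adj a b u v) := by
      funext a b u v x y
      exact propext (hP a b u v x y)
    have eQ : tQ I.n (mn ρ₃) = Relation.ReflTransGen (CoAdj I.G.Adj) := by
      funext x y
      exact propext (hQ x y)
    rw [hb2, eR, eP, eQ, b3, smallCase_iff, adj_typed' b3, Nat.lt_succ_iff]
    rfl

end Pool.Agent.Lib.MP_37c7bf_co_Mod

end MachinePart
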