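import Pool.Agent.Lib.MP_37c7bf_co_Mod.Machine
import Pool.Agent.Lib.MP_37c7bf_co_Mod.KerIff

section MainPart

/-! # Generic rigidity of graphs with a small modular partition -/

set_option autoImplicit false

namespace Pool.Agent.Lib.MP_37c7bf_co_Mod

open Pool.Agent.Lib.PolyTM Pool.Agent.Lib.FOLFP Function Turing Pool.Agent.H26R

variable {V : Type} [Fintype V] (G : SimpleGraph V)

/-- The acceptance condition implies generic rigidity. -/
theorem accepts_sound (hV : 4 ≤ Fintype.card V) (K : ℕ)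
    (h : Accepts G (fun _ H => GenericallyRigid H) K) : GenericallyRigid G := by
  rcases h with h | ⟨h1, h2⟩ | ⟨x₀, h1, h2⟩
  · exact excAcc_sound G hV h
  · exact kerAcc_sound G hV h1 K h2
  · exact kerAcc_sound G hV h1 K h2

/-- Generically rigid graphs with a partition into at least two and at most `w` modules are
accepted, unless exactly one vertex is adjacent to all others. -/
theorem accepts_complete (hV : 4 ≤ Fintype.card V) {w : ℕ} (π : V → Fin w)
    (hmod : ∀ x y z, π x = π y → π z ≠ π x → G.Adj x z → G.Adj y z)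
    (hne : ∀ x, ∃ y, π y ≠ π x)
    (huni : ∀ a, (∀ v, v ≠ a → G.Adj a v) → ∃ b, b ≠ a ∧ ∀ v, v ≠ b → G.Adj b v)
    (h : GenericallyRigid G) : Accepts G (fun _ H => GenericallyRigid H) (6 * w + 12) := by
  classical
  have hne' : Nonempty V := Fintype.card_pos_iff.1 (by omega)
  by_cases hex : ∃ a b, a ≠ b ∧ ∀ v, v ≠ a → v ≠ b → G.Adj v a ∧ G.Adj v b
  · obtain ⟨a, b, hab, hall⟩ := hex
    exact Or.inl (excAcc_complete G hV hab hall h)
  · have huni' : ∀ a, ∃ v, v ≠ a ∧ ¬ G.Adj a v := by
      intro a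
      by_contra hcon
      push Not at hcon
      obtain ⟨b, hba, hb⟩ := huni a hcon
      exact hex ⟨a, b, hba.symm, fun v hva hvb => ⟨(hcon v hva).symm, (hb v hvb).symm⟩⟩
    by_cases hGc : Gᶜ.Connected
    · have hG : G.Connected := by
        by_contra hcon
        exact not_rigid_of_not_connected hV hcon h
      have hgood := good_rel G hV h hGc
      refine Or.inr (Or.inl ⟨hgood, kerAcc_complete G hV hgood _ ?_ h⟩)
      have := rel_classes π hmod hne hG hGc
      omega
    · obtain ⟨x₀, y₀, hxy⟩ := exists_not_coadj hGc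
      have hgood := good_side G huni' hex x₀ y₀ hxy
      refine Or.inr (Or.inr ⟨x₀, hgood, kerAcc_complete G hV hgood _ ?_ h⟩)
      have := side_classes (Relation.ReflTransGen (CoAdj G.Adj)) x₀
      omega

open Classical in
/-- **Main theorem.** -/
theorem main (w : ℕ) : ∃ (f : Graph → List Bool) (M : TM2ComputableInPolyTime Graph.encode id f),
    (∀ k, Finite (M.tm.Γ k)) ∧
    (∀ I : Graph, (∃ π : Fin I.n → Fin w, (∀ x, ∃ y, π y ≠ π x) ∧
        ∀ x y z, π x = π y → π z ≠ π x → I.G.Adj x z → I.G.Adj y z) →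
      (∀ a, (∀ v, v ≠ a → I.G.Adj a v) → ∃ b, b ≠ a ∧ ∀ v, v ≠ b → I.G.Adj b v) →
      f I = [decide (GenericallyRigid I.G)]) ∧
    ∀ I : Graph, f I = [true] → GenericallyRigid I.G := by
  obtain ⟨f, M, hM, hf⟩ := machine (6 * w + 12) 3 (fun _ H => GenericallyRigid H)
    (fun _ H => GenericallyRigid H)
  refine ⟨f, M, hM, fun I ⟨π, hne, hmod⟩ huni => ?_, fun I hI => ?_⟩
  · obtain ⟨b, hfb, hb⟩ := hf I
    rw [hfb]
    have : b = decide (GenericallyRigid I.G) := by
      rw [Bool.eq_iff_iff, hb, decide_eq_true_eq]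
      constructor
      · rintro (⟨_, h⟩ | ⟨h1, h2⟩)
        · exact h
        · exact accepts_sound I.G (by rw [Fintype.card_fin]; omega) _ h2
      · intro h
        rcases Nat.lt_or_ge 3 I.n with hn | hn
        · exact Or.inr ⟨hn, accepts_complete I.G (by rw [Fintype.card_fin]; omega) π hmod hne
            huni h⟩
        · exact Or.inl ⟨hn, h⟩
    rw [this]
  · obtain ⟨b, hfb, hb⟩ := hf I
    rw [hI] at hfb
    have hbt : b = true := by simpa using hfb.symm
    rcases hb.1 hbt with ⟨_, h⟩ | ⟨h1, h2⟩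
    · exact h
    · exact accepts_sound I.G (by rw [Fintype.card_fin]; omega) _ h2

end Pool.Agent.Lib.MP_37c7bf_co_Mod

end MainPart
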